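import Mathlib

/-!
Partial summation with decreasing weights.
-/

open Finset

namespace Pool.Agent.W354.FK

theorem abel (w f : ℕ → ℝ) (M : ℕ) : ∑ j ∈ range M, w j * f j =
    ∑ j ∈ range M, (w j - w (j + 1)) * (∑ i ∈ range (j + 1), f i) +
      w M * ∑ i ∈ range M, f i := by
  induction M with
  | zero => simp
  | succ M ih =>
    rw [Finset.sum_range_succ, ih, Finset.sum_range_succ (fun j => (w j - w (j + 1)) * _),
      Finset.sum_range_succ f M]
    ring

/-- partial sums non-negative from `J1` on, bounded below by `-B` -/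
theorem abel_lower (w f : ℕ → ℝ) (J1 J2 : ℕ) (B : ℝ) (hw : Antitone w) (hw0 : ∀ j, 0 ≤ w j)
    (hJ : J1 ≤ J2) (hB0 : 0 ≤ B) (hF : ∀ J, J1 ≤ J → J ≤ J2 → 0 ≤ ∑ j ∈ range J, f j)
    (hB : ∀ J, J < J1 → -B ≤ ∑ j ∈ range J, f j) :
    -(w 0 * B) ≤ ∑ j ∈ range J2, w j * f j := by
  rw [abel]
  have h1 : 0 ≤ w J2 * ∑ i ∈ range J2, f i := mul_nonneg (hw0 _) (hF J2 hJ le_rfl)
  have h2 : ∑ j ∈ range J2, (w j - w (j + 1)) * (-B) ≤
      ∑ j ∈ range J2, (w j - w (j + 1)) * (∑ i ∈ range (j + 1), f i) := by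
    refine Finset.sum_le_sum (fun j hj => ?_)
    have hj' := Finset.mem_range.mp hj
    refine mul_le_mul_of_nonneg_left ?_ (sub_nonneg.mpr (hw (Nat.le_succ j)))
    by_cases h : J1 ≤ j + 1
    · have := hF (j + 1) h (by omega)
      linarith
    · exact hB (j + 1) (by omega)
  have h3 : ∑ j ∈ range J2, (w j - w (j + 1)) * (-B) = (w 0 - w J2) * (-B) := by
    rw [← Finset.sum_mul]
    congr 1
    exact Finset.sum_range_sub' w J2
  rw [h3] at h2
  have h4 : 0 ≤ w J2 * B := mul_nonneg (hw0 _) hB0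
  linarith

/-- weighted averages -/
theorem weighted (w G N : ℕ → ℝ) (c e B X : ℝ) (J1 J2 J3 M : ℕ) (hw : Antitone w)
    (hw0 : ∀ j, 0 ≤ w j) (h13 : J1 ≤ J3) (h32 : J3 ≤ J2) (hc : 0 ≤ c) (he : 0 ≤ e)
    (hce : c + e ≤ 1) (hB0 : 0 ≤ B) (hG : ∀ j, 0 ≤ G j) (hN : ∀ j, 0 ≤ N j)
    (hNB : ∀ j, j < M → N j ≤ B) (hM : J2 ≤ M)
    (h1 : ∀ J, J1 ≤ J → J ≤ J2 → (c + e) * ∑ j ∈ range J, N j ≤ ∑ j ∈ range J, G j)
    (h2 : X ≤ ∑ j ∈ range J3, N j) (hw3 : w 0 / 4 ≤ w J3)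
    (h4 : J1 * B ≤ e / 8 * X) (h5 : M * (w J2 * B) ≤ e / 8 * X * w 0) :
    c * ∑ j ∈ range M, w j * N j ≤ ∑ j ∈ range M, w j * G j := by
  have hX : 0 ≤ e * X := by
    have : 0 ≤ (J1 : ℝ) * B := by positivity
    linarith
  have a1 : -(w 0 * (J1 * B)) ≤ ∑ j ∈ range J2, w j * (G j - (c + e) * N j) := by
    refine abel_lower w _ J1 J2 (J1 * B) hw hw0 (h13.trans h32) (by positivity) ?_ ?_
    · intro J hJ1 hJ2
      rw [Finset.sum_sub_distrib, ← Finset.mul_sum]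
      have := h1 J hJ1 hJ2
      linarith
    · intro J hJ
      rw [Finset.sum_sub_distrib, ← Finset.mul_sum]
      have b1 : 0 ≤ ∑ j ∈ range J, G j := Finset.sum_nonneg fun j _ => hG j
      have b2 : ∑ j ∈ range J, N j ≤ J1 * B := by
        calc ∑ j ∈ range J, N j ≤ ∑ _j ∈ range J, B :=
              Finset.sum_le_sum fun j hj => hNB j (by have := Finset.mem_range.mp hj; omega)
          _ = J * B := by rw [Finset.sum_const, Finset.card_range, nsmul_eq_mul]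
          _ ≤ _ := by
            refine mul_le_mul_of_nonneg_right ?_ hB0
            exact_mod_cast hJ.le
      have b3 : 0 ≤ ∑ j ∈ range J, N j := Finset.sum_nonneg fun j _ => hN j
      have b4 : (c + e) * ∑ j ∈ range J, N j ≤ 1 * ∑ j ∈ range J, N j :=
        mul_le_mul_of_nonneg_right hce b3
      linarith
  have a2 : w 0 / 4 * X ≤ ∑ j ∈ range J2, w j * N j ∨ e = 0 := by
    by_cases he0 : e = 0
    · exact Or.inr he0
    left
    have heX : 0 ≤ X := by
      have : 0 < e := lt_of_le_of_ne he (Ne.symm he0)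
      exact nonneg_of_mul_nonneg_right hX this
    calc w 0 / 4 * X ≤ w J3 * ∑ j ∈ range J3, N j :=
          mul_le_mul hw3 h2 heX (hw0 _)
      _ = ∑ j ∈ range J3, w J3 * N j := by rw [Finset.mul_sum]
      _ ≤ ∑ j ∈ range J3, w j * N j := by
          refine Finset.sum_le_sum fun j hj => mul_le_mul_of_nonneg_right ?_ (hN j)
          exact hw (Finset.mem_range.mp hj).le
      _ ≤ ∑ j ∈ range J2, w j * N j := by
          refine Finset.sum_le_sum_of_subset_of_nonneg (Finset.range_mono h32) ?_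
          exact fun j _ _ => mul_nonneg (hw0 j) (hN j)
  have a2' : e * (w 0 / 4 * X) ≤ e * ∑ j ∈ range J2, w j * N j := by
    rcases a2 with h | h
    · exact mul_le_mul_of_nonneg_left h he
    · rw [h]; simp
  have a3 : ∑ j ∈ Finset.Ico J2 M, w j * N j ≤ M * (w J2 * B) := by
    calc ∑ j ∈ Finset.Ico J2 M, w j * N j ≤ ∑ _j ∈ Finset.Ico J2 M, w J2 * B := by
          refine Finset.sum_le_sum fun j hj => ?_
          rw [Finset.mem_Ico] at hj
          exact mul_le_mul (hw hj.1) (hNB j hj.2) (hN j) (hw0 _)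
      _ = ((M - J2 : ℕ) : ℝ) * (w J2 * B) := by
          rw [Finset.sum_const, Nat.card_Ico, nsmul_eq_mul]
      _ ≤ _ := by
          refine mul_le_mul_of_nonneg_right ?_ (mul_nonneg (hw0 _) hB0)
          exact_mod_cast Nat.sub_le M J2
  have a4 : ∑ j ∈ range M, w j * G j - c * ∑ j ∈ range M, w j * N j =
      ∑ j ∈ range J2, w j * (G j - (c + e) * N j) + e * ∑ j ∈ range J2, w j * N j +
        (∑ j ∈ Finset.Ico J2 M, w j * G j - c * ∑ j ∈ Finset.Ico J2 M, w j * N j) := by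
    have e1 : ∀ f : ℕ → ℝ, ∑ j ∈ range M, f j = ∑ j ∈ range J2, f j +
        ∑ j ∈ Finset.Ico J2 M, f j := fun f => (Finset.sum_range_add_sum_Ico f hM).symm
    rw [e1 (fun j => w j * G j), e1 (fun j => w j * N j)]
    have e2 : ∑ j ∈ range J2, w j * (G j - (c + e) * N j) = ∑ j ∈ range J2, w j * G j -
        (c + e) * ∑ j ∈ range J2, w j * N j := by
      rw [Finset.mul_sum, ← Finset.sum_sub_distrib]
      exact Finset.sum_congr rfl fun j _ => by ring
    rw [e2]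
    ring
  have a5 : 0 ≤ ∑ j ∈ Finset.Ico J2 M, w j * G j :=
    Finset.sum_nonneg fun j _ => mul_nonneg (hw0 j) (hG j)
  have a6 : 0 ≤ ∑ j ∈ Finset.Ico J2 M, w j * N j :=
    Finset.sum_nonneg fun j _ => mul_nonneg (hw0 j) (hN j)
  have a7 : c * ∑ j ∈ Finset.Ico J2 M, w j * N j ≤ 1 * ∑ j ∈ Finset.Ico J2 M, w j * N j :=
    mul_le_mul_of_nonneg_right (by linarith) a6
  have a8 : w 0 * (J1 * B) ≤ w 0 * (e / 8 * X) := mul_le_mul_of_nonneg_left h4 (hw0 0)
  have e9 : e * (w 0 / 4 * X) = 2 * (e / 8 * X * w 0) := by ring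
  have e10 : w 0 * (e / 8 * X) = e / 8 * X * w 0 := by ring
  rw [e9] at a2'
  rw [e10] at a8
  linarith

end Pool.Agent.W354.FK
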