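import Mathlib

/-!
The multiplicities `C(g, m-l) C(g, m+1+l)`, `2 m + 1 ≤ g`.
-/

open Filter Topology Set

namespace Pool.Agent.W354.FK

/-- decreasing weights of width about `√m` -/
structure Wt (m : ℕ) (w : ℕ → ℝ) : Prop where
  nn : ∀ l, 0 ≤ w l
  anti : Antitone w
  zero : ∀ l, m < l → w l = 0
  up : ∀ l, w l ≤ Real.exp (-(l : ℝ) ^ 2 / (2 * m + 2)) * w 0
  low : ∀ l, 16 * l ^ 2 ≤ m → w 0 / 4 ≤ w l

/-- `C(g, m-l) C(g, m+1+l)` for `l ≤ m`, and `0` for `l > m` -/
noncomputable def cG (g m l : ℕ) : ℝ :=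
  if l ≤ m then ((g.choose (m - l) * g.choose (m + 1 + l) : ℕ) : ℝ) else 0

theorem cG_nonneg (g m l : ℕ) : 0 ≤ cG g m l := by
  unfold cG
  split_ifs <;> positivity

theorem cG_step (g m l : ℕ) (hg : 2 * m + 1 ≤ g) (h : l < m) :
    cG g m (l + 1) * (((g : ℝ) - m + l + 1) * (m + l + 2)) =
      cG g m l * ((m - l) * (g - m - 1 - l)) := by
  obtain ⟨k, rfl⟩ : ∃ k, m = k + 1 + l := ⟨m - 1 - l, by omega⟩
  obtain ⟨e, rfl⟩ : ∃ e, g = 2 * (k + 1 + l) + 1 + e := ⟨g - (2 * (k + 1 + l) + 1), by omega⟩
  set g := 2 * (k + 1 + l) + 1 + e with hg'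
  unfold cG
  rw [if_pos (show l + 1 ≤ k + 1 + l by omega), if_pos (show l ≤ k + 1 + l by omega)]
  have h1 : k + 1 + l - (l + 1) = k := by omega
  have h2 : k + 1 + l - l = k + 1 := by omega
  have h3 : k + 1 + l + 1 + (l + 1) = (k + 1 + l + 1 + l) + 1 := by omega
  rw [h1, h2, h3]
  have e1 := Nat.choose_succ_right_eq g k
  have e2 := Nat.choose_succ_right_eq g (k + 1 + l + 1 + l)
  have e3 : g - k = k + 2 * l + 3 + e := by omega
  have e4 : g - (k + 1 + l + 1 + l) = k + 1 + e := by omega
  rw [e3] at e1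
  rw [e4] at e2
  have f1 : ((g.choose (k + 1) : ℕ) : ℝ) * (k + 1) = (g.choose k : ℕ) * (k + 2 * l + 3 + e) := by
    exact_mod_cast e1
  have f2 : ((g.choose (k + 1 + l + 1 + l + 1) : ℕ) : ℝ) * (k + 1 + l + 1 + l + 1) =
      (g.choose (k + 1 + l + 1 + l) : ℕ) * (k + 1 + e) := by
    exact_mod_cast e2
  have hgr : (g : ℝ) = 2 * (k + 1 + l) + 1 + e := by rw [hg']; push_cast; ring
  push_cast
  rw [hgr]
  have a1 : (2 * ((k : ℝ) + 1 + l) + 1 + e - (k + 1 + l) + l + 1) = k + 2 * l + 3 + e := by ring
  have a2 : ((k : ℝ) + 1 + l + l + 2) = k + 1 + l + 1 + l + 1 := by ring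
  have a3 : ((k : ℝ) + 1 + l - l) = k + 1 := by ring
  have a4 : (2 * ((k : ℝ) + 1 + l) + 1 + e - (k + 1 + l) - 1 - l) = k + 1 + e := by ring
  rw [a1, a2, a3, a4]
  calc ((g.choose k : ℕ) : ℝ) * (g.choose (k + 1 + l + 1 + l + 1) : ℕ) *
        ((k + 2 * l + 3 + e) * (k + 1 + l + 1 + l + 1)) =
        (((g.choose k : ℕ) : ℝ) * (k + 2 * l + 3 + e)) *
          (((g.choose (k + 1 + l + 1 + l + 1) : ℕ) : ℝ) * (k + 1 + l + 1 + l + 1)) := by ring
    _ = _ := by rw [← f1, f2]; ring

/-- the quotient of consecutive weights -/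
theorem cG_ratio (g m l : ℕ) (hg : 2 * m + 1 ≤ g) (h : l < m) :
    cG g m (l + 1) ≤ cG g m l * (((m : ℝ) - l) / (m + l + 2)) ∧
      cG g m l * (((m : ℝ) - l) / (m + l + 2)) ^ 2 ≤ cG g m (l + 1) := by
  have h1 := cG_step g m l hg h
  have hc := cG_nonneg g m l
  have hl : (0 : ℝ) ≤ l := Nat.cast_nonneg l
  have hlm : (l : ℝ) + 1 ≤ m := by exact_mod_cast h
  have hgm : 2 * (m : ℝ) + 1 ≤ g := by exact_mod_cast hg
  have hA : 0 < (g : ℝ) - m + l + 1 := by linarith
  have hB : 0 < (m : ℝ) + l + 2 := by linarith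
  have hr : 0 ≤ ((m : ℝ) - l) / (m + l + 2) := div_nonneg (by linarith) hB.le
  have h2 : cG g m (l + 1) = cG g m l * (((m : ℝ) - l) / (m + l + 2)) *
      ((g - m - 1 - l) / (g - m + l + 1)) := by
    field_simp
    linarith
  have h3 : ((g : ℝ) - m - 1 - l) / (g - m + l + 1) ≤ 1 := by
    rw [div_le_one hA]; linarith
  have h4 : ((m : ℝ) - l) / (m + l + 2) ≤ ((g : ℝ) - m - 1 - l) / (g - m + l + 1) := by
    rw [div_le_div_iff₀ hB hA]
    nlinarith
  constructor
  · rw [h2]
    exact mul_le_of_le_one_right (mul_nonneg hc hr) h3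
  · rw [h2, sq, ← mul_assoc]
    exact mul_le_mul_of_nonneg_left h4 (mul_nonneg hc hr)

theorem cG_wt (g m : ℕ) (hg : 2 * m + 1 ≤ g) : Wt m (cG g m) where
  nn := cG_nonneg g m
  zero := fun l hl => by
    unfold cG
    rw [if_neg (by omega)]
  anti := by
    refine antitone_nat_of_succ_le (fun l => ?_)
    by_cases h : l < m
    · refine (cG_ratio g m l hg h).1.trans ?_
      have hl : (0 : ℝ) ≤ l := Nat.cast_nonneg l
      refine mul_le_of_le_one_right (cG_nonneg g m l) ?_
      rw [div_le_one (by positivity)]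
      linarith
    · have : cG g m (l + 1) = 0 := by
        unfold cG
        rw [if_neg (by omega)]
      rw [this]
      exact cG_nonneg g m l
  up := by
    intro l
    induction l with
    | zero => simp
    | succ l ih =>
      by_cases h : l < m
      · have hl : (0 : ℝ) ≤ l := Nat.cast_nonneg l
        have hlm : (l : ℝ) + 1 ≤ m := by exact_mod_cast h
        have hm : (0 : ℝ) < 2 * m + 2 := by positivity
        have hml : (0 : ℝ) < m + l + 2 := by positivity
        have h3 : ((m : ℝ) - l) / (m + l + 2) ≤ Real.exp (-(2 * l + 1) / (2 * m + 2)) := by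
          have h4 := Real.add_one_le_exp (-(2 * (l : ℝ) + 1) / (2 * m + 2))
          refine le_trans ?_ h4
          rw [div_le_iff₀ hml]
          have h5 : (-(2 * (l : ℝ) + 1) / (2 * m + 2) + 1) * (m + l + 2) =
              (m + l + 2) - (2 * l + 1) * ((m + l + 2) / (2 * m + 2)) := by
            field_simp
            ring
          rw [h5]
          have h6 : ((m : ℝ) + l + 2) / (2 * m + 2) ≤ 1 := by
            rw [div_le_one hm]; linarith
          have h7 : (2 * (l : ℝ) + 1) * ((m + l + 2) / (2 * m + 2)) ≤ (2 * l + 1) * 1 :=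
            mul_le_mul_of_nonneg_left h6 (by positivity)
          linarith
        refine (cG_ratio g m l hg h).1.trans ?_
        calc cG g m l * (((m : ℝ) - l) / (m + l + 2)) ≤
            (Real.exp (-(l : ℝ) ^ 2 / (2 * m + 2)) * cG g m 0) *
              Real.exp (-(2 * l + 1) / (2 * m + 2)) := by
              refine mul_le_mul ih h3 ?_ (mul_nonneg (Real.exp_pos _).le (cG_nonneg g m 0))
              exact div_nonneg (by linarith) hml.le
          _ = Real.exp (-(l : ℝ) ^ 2 / (2 * m + 2) + -(2 * l + 1) / (2 * m + 2)) *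
              cG g m 0 := by
              rw [Real.exp_add]; ring
          _ = _ := by
              congr 2
              push_cast
              ring
      · have : cG g m (l + 1) = 0 := by
          unfold cG
          rw [if_neg (by omega)]
        rw [this]
        have := cG_nonneg g m 0
        positivity
  low := by
    intro l hlow
    have hc0 := cG_nonneg g m 0
    have key : ∀ l : ℕ, l ≤ m → (1 - (l : ℝ) * (4 * l + 4) / m) * cG g m 0 ≤ cG g m l := by
      intro l
      induction l with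
      | zero => intro _; simp
      | succ l ih =>
        intro h
        have h0 := ih (by omega)
        have hl : (0 : ℝ) ≤ l := Nat.cast_nonneg l
        have hlm : (l : ℝ) + 1 ≤ m := by exact_mod_cast h
        have hm : (0 : ℝ) < m := by linarith
        have hml : (0 : ℝ) < m + l + 2 := by positivity
        have hcl := cG_nonneg g m l
        have hr := (cG_ratio g m l hg (by omega)).2
        have h3 : 1 - (2 * (l : ℝ) + 2) / m ≤ ((m : ℝ) - l) / (m + l + 2) := by
          rw [le_div_iff₀ hml]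
          have h5 : (1 - (2 * (l : ℝ) + 2) / m) * (m + l + 2) = (m + l + 2) -
            (2 * l + 2) * ((m + l + 2) / m) := by ring
          rw [h5]
          have h6 : 1 ≤ ((m : ℝ) + l + 2) / m := by
            rw [le_div_iff₀ hm]; linarith
          have h7 : (2 * (l : ℝ) + 2) * 1 ≤ (2 * l + 2) * ((m + l + 2) / m) :=
            mul_le_mul_of_nonneg_left h6 (by positivity)
          linarith
        have h4 : 1 - (4 * (l : ℝ) + 4) / m ≤ (((m : ℝ) - l) / (m + l + 2)) ^ 2 := by
          have hρ : 0 ≤ ((m : ℝ) - l) / (m + l + 2) := div_nonneg (by linarith) hml.le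
          have h8 : 1 - (4 * (l : ℝ) + 4) / m = 1 - 2 * ((2 * (l : ℝ) + 2) / m) := by ring
          rw [h8]
          nlinarith [sq_nonneg (((m : ℝ) - l) / (m + l + 2) - 1)]
        have h8 : cG g m l ≤ cG g m 0 := by
          have : Antitone (cG g m) := by
            refine antitone_nat_of_succ_le (fun l => ?_)
            by_cases h : l < m
            · refine (cG_ratio g m l hg h).1.trans ?_
              have hl : (0 : ℝ) ≤ l := Nat.cast_nonneg l
              refine mul_le_of_le_one_right (cG_nonneg g m l) ?_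
              rw [div_le_one (by positivity)]
              linarith
            · have : cG g m (l + 1) = 0 := by
                unfold cG
                rw [if_neg (by omega)]
              rw [this]
              exact cG_nonneg g m l
          exact this (Nat.zero_le l)
        have h10 : cG g m l * (1 - (4 * l + 4) / m) ≤
            cG g m l * (((m : ℝ) - l) / (m + l + 2)) ^ 2 :=
          mul_le_mul_of_nonneg_left h4 hcl
        refine le_trans ?_ (h10.trans hr)
        have h11 : cG g m l * ((4 * l + 4) / m) ≤ cG g m 0 * ((4 * l + 4) / m) :=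
          mul_le_mul_of_nonneg_right h8 (by positivity)
        have h12 : (1 - ((l + 1 : ℕ) : ℝ) * (4 * ((l + 1 : ℕ) : ℝ) + 4) / m) * cG g m 0 ≤
            (1 - (l : ℝ) * (4 * l + 4) / m) * cG g m 0 - cG g m 0 * ((4 * l + 4) / m) := by
          push_cast
          have e : (1 - ((l : ℝ) + 1) * (4 * (l + 1) + 4) / m) * cG g m 0 =
              (1 - (l : ℝ) * (4 * l + 4) / m) * cG g m 0 - cG g m 0 * ((4 * l + 4) / m) -
                cG g m 0 * ((4 * l + 4) / m) := by
            field_simp
            ring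
          rw [e]
          have : 0 ≤ cG g m 0 * ((4 * l + 4) / m) := by positivity
          linarith
        linarith
    by_cases hl0 : l = 0
    · rw [hl0]
      linarith
    have hl1 : 1 ≤ l := Nat.one_le_iff_ne_zero.mpr hl0
    have hlm : l ≤ m := by nlinarith
    have h1 := key l hlm
    have hm : (0 : ℝ) < m := by
      have : 0 < m := by omega
      exact_mod_cast this
    have hl1' : (1 : ℝ) ≤ l := by exact_mod_cast hl1
    have h' : 16 * (l : ℝ) ^ 2 ≤ m := by exact_mod_cast hlow
    have h2 : (l : ℝ) * (4 * l + 4) / m ≤ 1 / 2 := by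
      rw [div_le_iff₀ hm]
      nlinarith
    refine le_trans ?_ h1
    have h3 : 1 / 2 * cG g m 0 ≤ (1 - (l : ℝ) * (4 * l + 4) / m) * cG g m 0 :=
      mul_le_mul_of_nonneg_right (by linarith) hc0
    linarith

end Pool.Agent.W354.FK
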