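import Pool.Agent.H385R5.HE8b

/-!
Parameters for the family of the powers of a Hecke character.
-/

open Filter Topology Set MeasureTheory

set_option maxHeartbeats 4000000

namespace Pool.Agent.W354.FK

open H385

/-- length of the short sum -/
theorem fk_tail (s : ℝ) (hs : 0 < s) : ∃ L0 : ℝ, 0 < L0 ∧ ∀ Λ ℒ : ℝ, L0 ≤ ℒ → 0 ≤ Λ →
    Λ ≤ 2 * ℒ → ∃ N : ℕ, 1 ≤ N ∧ (N : ℝ) ≤ 2 * Real.exp (Λ + s * ℒ) ∧
      ∀ u ∈ Set.Icc 0 Λ, Tl N u ≤ 1 := by
  obtain ⟨C8, hC8, h8⟩ := lam_tail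
  set A : ℝ := |Real.log C8| with hA
  have hA0 : 0 ≤ A := abs_nonneg _
  refine ⟨8 * (1 + A) / s ^ 2 + 1, by positivity, fun Λ ℒ hℒ hΛ hΛ2 => ?_⟩
  have hℒ1 : 1 ≤ ℒ := by
    have : 0 ≤ 8 * (1 + A) / s ^ 2 := by positivity
    linarith
  have hℒ0 : 0 < ℒ := by linarith
  set G : ℝ := s * ℒ with hG
  have hG0 : 0 ≤ G := by positivity
  refine ⟨⌈Real.exp (Λ + G)⌉₊, Nat.one_le_iff_ne_zero.mpr
    (Nat.ceil_pos.mpr (Real.exp_pos _)).ne', ?_, fun u hu => ?_⟩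
  · have h1 : (⌈Real.exp (Λ + G)⌉₊ : ℝ) < Real.exp (Λ + G) + 1 :=
      Nat.ceil_lt_add_one (Real.exp_pos _).le
    have h2 : 1 ≤ Real.exp (Λ + G) := Real.one_le_exp (by positivity)
    linarith
  · have h1 : Real.exp (Λ + G) ≤ (⌈Real.exp (Λ + G)⌉₊ : ℝ) := Nat.le_ceil _
    have h2 : Λ + G ≤ Real.log (⌈Real.exp (Λ + G)⌉₊ : ℝ) := by
      rw [Real.le_log_iff_exp_le (lt_of_lt_of_le (Real.exp_pos _) h1)]
      exact h1
    have h3 := h8 u G ⌈Real.exp (Λ + G)⌉₊ hu.1 hG0 (by linarith [hu.2])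
    refine le_trans h3 ?_
    have h4 : ℒ + A ≤ G ^ 2 / 8 := by
      have h5 : 8 * (1 + A) ≤ s ^ 2 * ℒ := by
        have : 8 * (1 + A) / s ^ 2 ≤ ℒ := by linarith
        rw [div_le_iff₀ (by positivity)] at this
        linarith
      have h6 : 8 * (1 + A) * ℒ ≤ s ^ 2 * ℒ * ℒ := mul_le_mul_of_nonneg_right h5 hℒ0.le
      have h7 : A ≤ A * ℒ := le_mul_of_one_le_right hA0 hℒ1
      rw [hG, le_div_iff₀ (by norm_num)]
      calc (ℒ + A) * 8 ≤ (ℒ + A * ℒ) * 8 := by linarith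
        _ = 8 * (1 + A) * ℒ := by ring
        _ ≤ s ^ 2 * ℒ * ℒ := h6
        _ = (s * ℒ) ^ 2 := by ring
    calc C8 * Real.exp (u / 2 - G ^ 2 / 8) = Real.exp (Real.log C8 + (u / 2 - G ^ 2 / 8)) := by
          rw [Real.exp_add, Real.exp_log hC8]
      _ ≤ Real.exp 0 := by
          refine Real.exp_le_exp.mpr ?_
          have := le_abs_self (Real.log C8)
          linarith [hu.2]
      _ = 1 := Real.exp_zero

/-- large `T` -/
theorem fk_large (s η ε' c L0 : ℝ) (hs : 0 < s) (hη : 0 < η) (hε' : 0 < ε') (hc : 0 < c) :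
    ∃ T0 : ℝ, 1 ≤ T0 ∧ ∀ T : ℝ, T0 ≤ T → L0 ≤ Real.log T ∧ Real.log 6 ≤ η * Real.log T ∧
      4 * Real.sqrt (2 * Real.log T) ≤ c * T ∧ 15 ≤ ε' * T ^ (s / 2) ∧ 1 ≤ ε' * T ^ (s / 3) ∧
      64 * T ^ 8 * Real.exp (-T / 2) ≤ ε' ^ 2 := by
  have e1 : ∀ᶠ T : ℝ in atTop, L0 ≤ Real.log T := Real.tendsto_log_atTop.eventually_ge_atTop L0
  have e2 : ∀ᶠ T : ℝ in atTop, Real.log 6 ≤ η * Real.log T := by
    filter_upwards [Real.tendsto_log_atTop.eventually_ge_atTop (Real.log 6 / η)] with T hT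
    rw [div_le_iff₀ hη] at hT
    linarith
  have e3 : ∀ᶠ T : ℝ in atTop, 4 * Real.sqrt (2 * Real.log T) ≤ c * T := by
    filter_upwards [eventually_ge_atTop (32 / c ^ 2), eventually_ge_atTop 1] with T hT hT1
    have hlog : Real.log T ≤ T := by
      have := Real.log_le_sub_one_of_pos (show 0 < T by linarith)
      linarith
    have h1 : Real.sqrt (2 * Real.log T) ≤ c / 4 * T := by
      rw [Real.sqrt_le_left (by positivity)]
      rw [div_le_iff₀ (by positivity)] at hT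
      have h2 : (c / 4 * T) ^ 2 = (T * c ^ 2) * T / 16 := by ring
      rw [h2]
      have h3 : 32 * T ≤ (T * c ^ 2) * T := mul_le_mul_of_nonneg_right hT (by linarith)
      linarith
    linarith
  have e4 : ∀ᶠ T : ℝ in atTop, 15 ≤ ε' * T ^ (s / 2) := by
    filter_upwards [(tendsto_rpow_atTop (show 0 < s / 2 by positivity)).eventually_ge_atTop
      (15 / ε')] with T hT
    rw [div_le_iff₀ hε'] at hT
    linarith
  have e5 : ∀ᶠ T : ℝ in atTop, 1 ≤ ε' * T ^ (s / 3) := by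
    filter_upwards [(tendsto_rpow_atTop (show 0 < s / 3 by positivity)).eventually_ge_atTop
      (1 / ε')] with T hT
    rw [div_le_iff₀ hε'] at hT
    linarith
  have e6 : ∀ᶠ T : ℝ in atTop, 64 * T ^ 8 * Real.exp (-T / 2) ≤ ε' ^ 2 := by
    have h1 := Real.tendsto_pow_mul_exp_neg_atTop_nhds_zero 8
    have h2 : Tendsto (fun T : ℝ => T / 2) atTop atTop :=
      tendsto_id.atTop_div_const (by norm_num)
    have h3 := h1.comp h2
    have h4 : ∀ᶠ T : ℝ in atTop, (T / 2) ^ 8 * Real.exp (-(T / 2)) < ε' ^ 2 / (64 * 2 ^ 8) := by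
      exact h3.eventually_lt_const (by positivity)
    filter_upwards [h4] with T hT
    rw [lt_div_iff₀ (by positivity)] at hT
    refine le_trans (le_of_eq ?_) hT.le
    have : -T / 2 = -(T / 2) := by ring
    rw [this]
    ring
  obtain ⟨T0, hT0⟩ := (e1.and (e2.and (e3.and (e4.and (e5.and e6))))).exists_forall_of_atTop
  exact ⟨max 1 T0, le_max_left _ _, fun T hT => hT0 T ((le_max_right _ _).trans hT)⟩

/-- conditions on the parameters -/
theorem fk_param (s η ε' ε1 c L0 : ℝ) (hs : 0 < s) (hs1 : s ≤ 1 / 2) (hη : 0 < η) (hηs : η ≤ s / 6)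
    (hηε : 3 * η ≤ ε1) (hε' : 0 < ε') (hc : 0 < c) :
    ∃ T0 : ℝ, 1 ≤ T0 ∧ ∀ (T Q R ℒ : ℝ) (J : ℕ), T0 ≤ T → 1 ≤ Q → Q ≤ T ^ η → 0 ≤ R →
      R ≤ T ^ (1 + η) → T ^ (1 - η) ≤ J → (J : ℝ) ≤ T ^ (1 + η) →
      ℒ = Real.log (Q * (R + 4 * J + T)) →
      L0 ≤ ℒ ∧ Real.log T ≤ ℒ ∧ (1 - ε1) * ℒ ≤ Real.log T ∧ 4 * Real.sqrt ℒ ≤ c * T ∧
      1 ≤ J ∧ 1 ≤ T ^ (1 - s / 2) ∧ T ^ (1 - s / 2) ≤ ε' * J ∧ T ^ (1 - s / 2) ≤ ε' * T ∧
      ∀ N : ℕ, (N : ℝ) ≤ 2 * Real.exp ((2 - 4 * s) * ℒ + s * ℒ) →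
        10 * Real.sqrt N ≤ ε' * T ^ (1 - s / 2) ∧
        4 * (N : ℝ) ^ 4 * Real.exp (-(T ^ (1 - s / 2)) ^ 2 / 2) ≤ ε' ^ 2 := by
  obtain ⟨T0, hT0, h⟩ := fk_large s η ε' c L0 hs hη hε' hc
  refine ⟨T0, hT0, ?_⟩
  intro T Q R ℒ J hT hQ1 hQ hR0 hR hJ1 hJ2 hℒ
  obtain ⟨a1, a2, a3, a4, a5, a6⟩ := h T hT
  have hT1 : 1 ≤ T := hT0.trans hT
  have hTp : 0 < T := by linarith
  have hlogT : 0 ≤ Real.log T := Real.log_nonneg hT1
  have hJ0 : (0 : ℝ) < J := lt_of_lt_of_le (Real.rpow_pos_of_pos hTp _) hJ1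
  have hJn : 1 ≤ J := by
    have : 0 < J := by exact_mod_cast hJ0
    omega
  have hTT : T ≤ T ^ (1 + η) := by
    calc T = T ^ (1 : ℝ) := (Real.rpow_one T).symm
      _ ≤ T ^ (1 + η) := Real.rpow_le_rpow_of_exponent_le hT1 (by linarith)
  have hS : R + 4 * J + T ≤ 6 * T ^ (1 + η) := by linarith
  have hS1 : T ≤ R + 4 * J + T := by linarith
  have hS0 : 0 < R + 4 * J + T := by linarith
  have hℒT : Real.log T ≤ ℒ := by
    rw [hℒ]
    refine Real.log_le_log hTp ?_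
    nlinarith
  have hℒ2 : ℒ ≤ (1 + 3 * η) * Real.log T := by
    have h1 : ℒ ≤ Real.log (T ^ η * (6 * T ^ (1 + η))) := by
      rw [hℒ]
      refine Real.log_le_log (by positivity) ?_
      exact mul_le_mul hQ hS hS0.le (Real.rpow_nonneg hTp.le _)
    have h2 : Real.log (T ^ η * (6 * T ^ (1 + η))) = η * Real.log T + (Real.log 6 +
        (1 + η) * Real.log T) := by
      rw [Real.log_mul (Real.rpow_pos_of_pos hTp _).ne'
        (mul_pos (by norm_num) (Real.rpow_pos_of_pos hTp _)).ne',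
        Real.log_mul (by norm_num) (Real.rpow_pos_of_pos hTp _).ne', Real.log_rpow hTp,
        Real.log_rpow hTp]
    rw [h2] at h1
    linarith
  have hη1 : η ≤ 1 / 12 := by linarith
  have hε1 : 0 < ε1 := by linarith
  have k1 : T ^ (1 - s / 2) ≤ ε' * T ^ (1 - s / 6) := by
    have e : T ^ (1 - s / 6) = T ^ (s / 3) * T ^ (1 - s / 2) := by
      rw [← Real.rpow_add hTp]; congr 1; ring
    rw [e, ← mul_assoc]
    exact le_mul_of_one_le_left (Real.rpow_nonneg hTp.le _) a5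
  refine ⟨a1.trans hℒT, hℒT, ?_, ?_, hJn, ?_, ?_, ?_, ?_⟩
  · by_cases hb : 1 - ε1 ≤ 0
    · have : (1 - ε1) * ℒ ≤ 0 := mul_nonpos_of_nonpos_of_nonneg hb (hlogT.trans hℒT)
      linarith
    · have h3 : (1 - ε1) * ℒ ≤ (1 - ε1) * ((1 + ε1) * Real.log T) := by
        refine mul_le_mul_of_nonneg_left ?_ (by linarith)
        refine hℒ2.trans ?_
        exact mul_le_mul_of_nonneg_right (by linarith) hlogT
      have h4 : (1 - ε1) * ((1 + ε1) * Real.log T) = Real.log T - ε1 ^ 2 * Real.log T := by ring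
      have h5 : 0 ≤ ε1 ^ 2 * Real.log T := by positivity
      linarith
  · refine le_trans ?_ a3
    have : Real.sqrt ℒ ≤ Real.sqrt (2 * Real.log T) := by
      refine Real.sqrt_le_sqrt ?_
      refine hℒ2.trans (mul_le_mul_of_nonneg_right (by linarith) hlogT)
    linarith
  · exact Real.one_le_rpow hT1 (by linarith)
  · refine k1.trans (mul_le_mul_of_nonneg_left ?_ hε'.le)
    refine le_trans ?_ hJ1
    exact Real.rpow_le_rpow_of_exponent_le hT1 (by linarith)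
  · refine k1.trans (mul_le_mul_of_nonneg_left ?_ hε'.le)
    calc T ^ (1 - s / 6) ≤ T ^ (1 : ℝ) := Real.rpow_le_rpow_of_exponent_le hT1 (by linarith)
      _ = T := Real.rpow_one T
  · intro N hN
    have hN2 : (N : ℝ) ≤ 2 * T ^ (2 - 2 * s) := by
      refine hN.trans ?_
      refine mul_le_mul_of_nonneg_left ?_ (by norm_num)
      rw [Real.rpow_def_of_pos hTp]
      refine Real.exp_le_exp.mpr ?_
      have h1 : (2 - 4 * s) * ℒ + s * ℒ = (2 - 3 * s) * ℒ := by ring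
      rw [h1]
      have h2 : (2 - 3 * s) * ℒ ≤ (2 - 3 * s) * ((1 + 3 * η) * Real.log T) :=
        mul_le_mul_of_nonneg_left hℒ2 (by linarith)
      have h3 : (2 - 3 * s) * (1 + 3 * η) ≤ 2 - 2 * s := by nlinarith
      have h4 := mul_le_mul_of_nonneg_right h3 hlogT
      calc _ ≤ _ := h2
        _ = (2 - 3 * s) * (1 + 3 * η) * Real.log T := by ring
        _ ≤ (2 - 2 * s) * Real.log T := h4
        _ = _ := by ring
    constructor
    · have h1 : Real.sqrt N ≤ 1.5 * T ^ (1 - s) := by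
        rw [Real.sqrt_le_left (by positivity)]
        have e : (1.5 * T ^ (1 - s)) ^ 2 = 2.25 * T ^ (2 - 2 * s) := by
          rw [mul_pow, ← Real.rpow_natCast (T ^ (1 - s)) 2, ← Real.rpow_mul hTp.le]
          norm_num
          congr 1
          ring
        rw [e]
        refine hN2.trans ?_
        have := Real.rpow_nonneg hTp.le (2 - 2 * s)
        nlinarith
      have e : T ^ (1 - s / 2) = T ^ (s / 2) * T ^ (1 - s) := by
        rw [← Real.rpow_add hTp]; congr 1; ring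
      rw [e, ← mul_assoc]
      have h2 : 15 * T ^ (1 - s) ≤ ε' * T ^ (s / 2) * T ^ (1 - s) :=
        mul_le_mul_of_nonneg_right a4 (Real.rpow_nonneg hTp.le _)
      linarith
    · have h1 : (N : ℝ) ≤ 2 * T ^ 2 := by
        refine hN2.trans (mul_le_mul_of_nonneg_left ?_ (by norm_num))
        rw [← Real.rpow_natCast T 2]
        refine Real.rpow_le_rpow_of_exponent_le hT1 ?_
        push_cast
        linarith
      have h2 : (N : ℝ) ^ 4 ≤ 16 * T ^ 8 := by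
        have := pow_le_pow_left₀ (Nat.cast_nonneg N) h1 4
        refine this.trans (le_of_eq ?_)
        ring
      have h3 : T ≤ (T ^ (1 - s / 2)) ^ 2 := by
        rw [← Real.rpow_natCast (T ^ (1 - s / 2)) 2, ← Real.rpow_mul hTp.le]
        calc T = T ^ (1 : ℝ) := (Real.rpow_one T).symm
          _ ≤ _ := Real.rpow_le_rpow_of_exponent_le hT1 (by push_cast; linarith)
      calc 4 * (N : ℝ) ^ 4 * Real.exp (-(T ^ (1 - s / 2)) ^ 2 / 2) ≤
          4 * (16 * T ^ 8) * Real.exp (-T / 2) := by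
            refine mul_le_mul (by linarith) (Real.exp_le_exp.mpr ?_) (Real.exp_pos _).le
              (by positivity)
            have e : -(T ^ (1 - s / 2)) ^ 2 / 2 = -((T ^ (1 - s / 2)) ^ 2) / 2 := by ring
            rw [e]
            linarith
        _ = 64 * T ^ 8 * Real.exp (-T / 2) := by ring
        _ ≤ _ := a6

end Pool.Agent.W354.FK
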