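import Pool.Agent.H385R5.HE8c
import Pool.Agent.W354.FK.Param
import Pool.Agent.W354.MS.Full
import Pool.Agent.W354.PK.FinK
import Pool.Agent.W354.GE.FamAbsE
import Pool.Agent.W354.GE.NLowE

/-!
The family of the L-functions of infinity type `r + 4 j`, `j < J`, in the window `T < Im s ≤ 2T`
with `J` about `T`.
-/

open Complex Filter Topology Set MeasureTheory
open H370 (zset mult NN Nd Ns)

set_option maxHeartbeats 4000000

namespace Pool.Agent.W354.FK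

open H385
open Pool.Agent.W354.PK (HCk LK aK bK lck lck_logC goodK)
open Pool.Agent.W354 (LogC GoodE)
open Pool.Agent.W354.E (fam_abstract_E fam_abstract_d_E N_lower_E)
open Pool.Agent.H304R3.HK (tc one_le_norm_tc)

theorem lck_le (r j J : ℕ) (hj : j < J) (Q T : ℝ) (hQ : 1 ≤ Q) (hT : 1 ≤ T) :
    lck (r + 4 * j) Q T ≤ Real.log (Q * (r + 4 * J + T)) := by
  unfold lck
  have hj' : (j : ℝ) ≤ J := by exact_mod_cast hj.le
  have h1 : ((r + 4 * j : ℕ) : ℝ) = r + 4 * j := by push_cast; ring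
  have h2 : (0 : ℝ) ≤ r := Nat.cast_nonneg r
  have h3 : (0 : ℝ) ≤ j := Nat.cast_nonneg j
  rw [h1]
  refine Real.log_le_log (by positivity) ?_
  refine mul_le_mul_of_nonneg_left ?_ (by linarith)
  linarith

theorem le_lck (k : ℕ) (Q T : ℝ) (hQ : 1 ≤ Q) (hT : 1 ≤ T) : Real.log T ≤ lck k Q T := by
  unfold lck
  have h2 : (0 : ℝ) ≤ k := Nat.cast_nonneg k
  refine Real.log_le_log (by linarith) ?_
  nlinarith

/-- the core estimate -/
theorem fk_core (γ β ε : ℝ) (h0 : 0 < γ) (hπ : γ < Real.pi) (hβ : 0 < β) (hβ1 : β < 2)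
    (hε : 0 < ε) : ∃ T0 η : ℝ, 1 ≤ T0 ∧ 0 < η ∧ η ≤ 1 / 12 ∧ ∀ (r : ℕ) (q : ZI) (χ : ZI →* ℂ)
      (T : ℝ) (J : ℕ), 1 ≤ r → HCk r q χ → T0 ≤ T → (r : ℝ) ≤ T ^ (1 + η) → ‖tc q‖ ≤ T ^ η →
      T ^ (1 - η) ≤ J → (J : ℝ) ≤ T ^ (1 + η) →
      (∑ j ∈ Finset.range J, (2 * (NN (LK (r + 4 * j) χ) T (2 * T) : ℝ) -
          (Ns (LK (r + 4 * j) χ) T (2 * T) : ℝ)) ≤
        (2 * Rw γ 0 / β + β * (∫ α in (0 : ℝ)..1, α * Rw γ α) + ε) *
        ∑ j ∈ Finset.range J, (NN (LK (r + 4 * j) χ) T (2 * T) : ℝ)) ∧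
      (∑ j ∈ Finset.range J, (3 * (NN (LK (r + 4 * j) χ) T (2 * T) : ℝ) -
          2 * (Nd (LK (r + 4 * j) χ) T (2 * T) : ℝ)) ≤
        (2 * Rw γ 0 / β + β * (∫ α in (0 : ℝ)..1, α * Rw γ α) + ε) *
        ∑ j ∈ Finset.range J, (NN (LK (r + 4 * j) χ) T (2 * T) : ℝ)) ∧
      (T * Real.log T / 16 ≤ (1 / (J : ℝ)) *
        ∑ j ∈ Finset.range J, (NN (LK (r + 4 * j) χ) T (2 * T) : ℝ)) := by
  classical
  obtain ⟨A, hA1, hgood⟩ := goodK
  obtain ⟨CS0, hCS0, hS, hcK, hlam⟩ := selb_cK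
  obtain ⟨C1, hC1, hfam⟩ := fam_abstract_E γ h0 hπ 2 A (by norm_num) hA1
  obtain ⟨C1', hC1', hfam'⟩ := fam_abstract_d_E γ h0 hπ 2 A (by norm_num) hA1
  obtain ⟨C2, hC2, hlow⟩ := N_lower_E 2 A (by norm_num) hA1
  set J0 : ℝ := ∫ α in (0 : ℝ)..1, α * Rw γ α with hJ0d
  have hJ00 : 0 ≤ J0 := I1_nonneg γ h0 hπ
  have hR0 : 0 ≤ Rw γ 0 := Rw_nonneg γ h0 hπ 0
  set CC : ℝ := max C1 C1' with hCC
  have hCC0 : 0 < CC := lt_max_of_lt_left hC1
  obtain ⟨ε1, L0, hε1, hL0, hnum⟩ := cyc_num (4 * Rw γ 0) (2 * β * J0) β (2 * ε) CC C2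
    (by positivity) (by positivity) hβ (by positivity) hCC0 hC2
  obtain ⟨C5, hC5, hint⟩ := Pool.Agent.W354.MS.ms_int
  obtain ⟨δ, hδ, hδ1, hδ2⟩ : ∃ δ : ℝ, 0 < δ ∧ δ ≤ 1 ∧ 2 * β * J0 * δ ≤ ε1 / 4 := by
    refine ⟨min 1 (ε1 / 4 / (2 * β * J0 + 1)), lt_min one_pos (by positivity), min_le_left _ _, ?_⟩
    calc 2 * β * J0 * min 1 (ε1 / 4 / (2 * β * J0 + 1)) ≤
        (2 * β * J0 + 1) * (ε1 / 4 / (2 * β * J0 + 1)) := by
          gcongr
          · linarith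
          · exact min_le_right _ _
      _ = ε1 / 4 := by field_simp
  obtain ⟨L1, hL1, hpoint⟩ := YH_point cK CS0 hS ε1 C5 hε1 hC5 δ hδ hδ1
  obtain ⟨L2, η2, hL2, hη2, hYint⟩ := YH_integral cK CS0 hS γ β ε1 C5 h0 hπ hβ hβ1 hε1 hC5 δ
    hδ hδ1 hδ2
  set s : ℝ := (2 - β) / 4 with hs
  have hs0 : 0 < s := by rw [hs]; linarith
  have hs1 : s ≤ 1 / 2 := by rw [hs]; linarith
  have hβs : β = 2 - 4 * s := by rw [hs]; ring
  obtain ⟨L3, hL3, htail⟩ := fk_tail s hs0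
  set εs : ℝ := min (1 / 4) η2 with hεs
  have hεs0 : 0 < εs := lt_min (by norm_num) hη2
  have hεs1 : εs ≤ 1 / 4 := min_le_left _ _
  have hεs2 : εs ≤ η2 := min_le_right _ _
  set ε1' : ℝ := min ε1 (1 / 4) with hε1'
  have hε1'0 : 0 < ε1' := lt_min hε1 (by norm_num)
  set η : ℝ := min (s / 6) (ε1' / 3) with hη
  have hη0 : 0 < η := lt_min (by positivity) (by positivity)
  have hηs : η ≤ s / 6 := min_le_left _ _
  have hηε : 3 * η ≤ ε1' := by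
    have : η ≤ ε1' / 3 := min_le_right _ _
    linarith
  obtain ⟨T0, hT01, hpar⟩ := fk_param s η εs ε1' (min (min ε1 (1 / 8)) (1 / (32 * (C2 + 1))))
    (L0 + L1 + L2 + L3 + 1 / β + 32 * C2 + 1) hs0 hs1 hη0 hηs hηε hεs0
    (by positivity)
  refine ⟨T0, η, hT01, hη0, by linarith, ?_⟩
  intro r q χ T J hr H hT hr2 hq2 hJ1 hJ2
  have hq : q ≠ 0 := H.q0
  set Q : ℝ := ‖tc q‖ with hQd
  have hQ1 : 1 ≤ Q := one_le_norm_tc hq
  set ℒ : ℝ := Real.log (Q * (r + 4 * J + T)) with hℒd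
  obtain ⟨d1, d2, d3, d4, d5, d6, d7, d8, d9⟩ := hpar T Q r ℒ J hT hQ1 hq2 (Nat.cast_nonneg r) hr2
    hJ1 hJ2 hℒd
  have hT1 : 1 ≤ T := hT01.trans hT
  have hT0 : 0 < T := by linarith
  have hlT0 : 0 ≤ Real.log T := Real.log_nonneg hT1
  have hβi : 0 < 1 / β := by positivity
  have hℒL0 : L0 ≤ ℒ := by linarith
  have hℒ1 : 1 ≤ ℒ := hL0.trans hℒL0
  have hℒL1 : L1 ≤ ℒ := by linarith
  have hℒL2 : L2 ≤ ℒ := by linarith
  have hℒL3 : L3 ≤ ℒ := by linarith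
  have hℒC2 : 32 * C2 ≤ ℒ := by linarith
  have hΛ1 : 1 ≤ β * ℒ := by
    have : 1 / β ≤ ℒ := by linarith
    rw [div_le_iff₀ hβ] at this
    linarith
  have hℒ0 : 0 < ℒ := by linarith
  set κ : ℝ := 4 * Real.sqrt ℒ with hκd
  have hTℒ : T ≤ Real.exp ℒ := by
    calc T = Real.exp (Real.log T) := (Real.exp_log hT0).symm
      _ ≤ _ := Real.exp_le_exp.mpr d2
  obtain ⟨p1, p2, p3, p4, p5, p6⟩ := he_param β ℒ T κ hβ1 hℒ1 hκd hTℒ
  have hκ0 : 0 ≤ κ := by linarith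
  have hκ1 : κ ≤ ε1 * T := d4.trans (by
    refine mul_le_mul_of_nonneg_right ?_ hT0.le
    exact (min_le_left _ _).trans (min_le_left _ _))
  have hκ8 : 8 * κ ≤ T := by
    have : κ ≤ 1 / 8 * T := d4.trans (by
      refine mul_le_mul_of_nonneg_right ?_ hT0.le
      exact (min_le_left _ _).trans (min_le_right _ _))
    linarith
  have hκC2 : C2 * κ ≤ T / 32 := by
    have h1 : κ ≤ 1 / (32 * (C2 + 1)) * T := d4.trans (by
      refine mul_le_mul_of_nonneg_right ?_ hT0.le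
      exact min_le_right _ _)
    calc C2 * κ ≤ (C2 + 1) * (1 / (32 * (C2 + 1)) * T) := by
          refine mul_le_mul (by linarith) h1 hκ0 (by linarith)
      _ = T / 32 := by field_simp
  have hκT1 : κ ≤ T := by linarith
  have hJ0 : (0 : ℝ) < J := by exact_mod_cast d5
  have hcr0 : 0 ≤ 1 / (J : ℝ) := by positivity
  have hW : ∑ _j ∈ Finset.range J, (1 / (J : ℝ)) = 1 := by
    rw [Finset.sum_const, nsmul_eq_mul, Finset.card_range]
    field_simp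
  obtain ⟨N, hN1, hNb, hN⟩ := htail (β * ℒ) ℒ hℒL3 (by positivity)
    (mul_le_mul_of_nonneg_right hβ1.le hℒ0.le)
  rw [hβs] at hNb
  obtain ⟨f1, f2⟩ := d9 N hNb
  set κ2 : ℝ := T ^ (1 - s / 2) with hκ2
  have hκY0 : 0 ≤ εs * T := by positivity
  have hκY1 : εs * T ≤ T := by nlinarith
  have hκY2 : εs * T ≤ η2 * T := mul_le_mul_of_nonneg_right hεs2 hT0.le
  have hlog1 : Real.log ((1 : ℕ) : ℝ) ≤ 2 * ℒ := by
    rw [Nat.cast_one, Real.log_one]; positivity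
  obtain ⟨y1, y2, hy1, hy2, m2', m5⟩ := hpoint 1 T (εs * T) ℒ le_rfl hT1 hℒL1 hlog1 hκY0 hκY1
  have m2 : ∀ u ∈ Set.Icc 0 (β * ℒ), YH cK δ C5 1 T (εs * T) u ≤ T * (y1 * (u + 1) + y2) :=
    fun u hu => m2' u hu.1
  have m4 := hYint 1 T (εs * T) ℒ le_rfl hT1 hℒL2 hlog1 hκY0 hκY2
  have m1 : ∀ u ∈ Set.Icc 0 (β * ℒ), ∫ t : ℝ, ∑ j ∈ Finset.range J, (1 / (J : ℝ)) *
      ‖∑' n : ℕ, aK (r + 4 * j) χ n * ((Real.sqrt n : ℂ)⁻¹ * bt T u t (Real.log n))‖ ^ 2 ≤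
      YH cK δ C5 1 T (εs * T) u := by
    intro u hu
    exact hint r q χ H N T u κ2 εs δ J hN1 hεs0 hεs1 d6 f1 d7 hT1 d8 f2 hu.1 hδ (hN u hu) d5
  have m3 : IntervalIntegrable (YH cK δ C5 1 T (εs * T)) volume 0 (β * ℒ) :=
    (YH_cont _ CS0 hS _ _ _ _ _).intervalIntegrable _ _
  have hlogc : ∀ j ∈ Finset.range J, lck (r + 4 * j) Q T ≤ ℒ := fun j hj =>
    lck_le r j J (Finset.mem_range.mp hj) Q T hQ1 hT1
  have hGE : ∀ j : ℕ, GoodE 2 A (lck (r + 4 * j) Q) (LK (r + 4 * j) χ) (aK (r + 4 * j) χ) :=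
    fun j => (hgood (r + 4 * j) q χ (by omega) (Pool.Agent.W354.MS.HCk_shift H j)).2.2.2
  have hdata : ∀ j ∈ Finset.range J, 0 ≤ (1 / (J : ℝ)) ∧ LogC (lck (r + 4 * j) Q) ∧
      GoodE 2 A (lck (r + 4 * j) Q) (LK (r + 4 * j) χ) (aK (r + 4 * j) χ) ∧
      lck (r + 4 * j) Q T ≤ ℒ := by
    intro j hj
    exact ⟨hcr0, lck_logC _ hQ1, hGE j, hlogc j hj⟩
  have k1 := hfam (Finset.range J) (fun _ => 1 / (J : ℝ)) (fun j => lck (r + 4 * j) Q)
    (fun j => LK (r + 4 * j) χ) (fun j => aK (r + 4 * j) χ) T κ (β * ℒ) ℒ y1 y2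
    (YH cK δ C5 1 T (εs * T)) hdata p1 hκ8 p3 hΛ1 hℒ1 p5 hy1 hy2 m1 m2 m3
  have k2 := hfam' (Finset.range J) (fun _ => 1 / (J : ℝ)) (fun j => lck (r + 4 * j) Q)
    (fun j => LK (r + 4 * j) χ) (fun j => aK (r + 4 * j) χ) T κ (β * ℒ) ℒ y1 y2
    (YH cK δ C5 1 T (εs * T)) hdata p1 hκ8 p3 hΛ1 hℒ1 p5 hy1 hy2 m1 m2 m3
  set SN : ℝ := ∑ j ∈ Finset.range J, (1 / (J : ℝ)) *
    (NN (LK (r + 4 * j) χ) T (2 * T) : ℝ) with hSN
  -- lower bound for the number of zeros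
  have hNlow' : 2 * (T / (2 * Real.pi) * Real.log T - C2 * (T + κ * ℒ)) ≤ SN := by
    have hpt : ∀ j ∈ Finset.range J,
        2 * (T / (2 * Real.pi) * Real.log T - C2 * (T + κ * ℒ)) ≤
        (NN (LK (r + 4 * j) χ) T (2 * T) : ℝ) := by
      intro j hj
      have hl := hlow (lck (r + 4 * j) Q) (LK (r + 4 * j) χ) (aK (r + 4 * j) χ)
        (lck_logC _ hQ1) (hGE j) T κ p1 hκ8
      refine le_trans ?_ hl
      have hn : 0 ≤ lck (r + 4 * j) Q T := (lck_logC _ hQ1).nonneg hT1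
      have a3 : T * lck (r + 4 * j) Q T ^ 2 * Real.exp (-κ ^ 2 / 2) ≤ T := by
        have b1 : lck (r + 4 * j) Q T ^ 2 ≤ ℒ ^ 2 :=
          pow_le_pow_left₀ hn (hlogc j hj) 2
        have b2 : lck (r + 4 * j) Q T ^ 2 * Real.exp (-κ ^ 2 / 2) ≤ 1 :=
          (mul_le_mul_of_nonneg_right b1 (Real.exp_pos _).le).trans p6
        calc _ = T * (lck (r + 4 * j) Q T ^ 2 * Real.exp (-κ ^ 2 / 2)) := by ring
          _ ≤ T * 1 := mul_le_mul_of_nonneg_left b2 hT0.le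
          _ = T := mul_one T
      have a4 : κ * lck (r + 4 * j) Q T ≤ κ * ℒ :=
        mul_le_mul_of_nonneg_left (hlogc j hj) hκ0
      have a5 : C2 * (T + κ * lck (r + 4 * j) Q T +
          T * lck (r + 4 * j) Q T ^ 2 * Real.exp (-κ ^ 2 / 2)) ≤
          2 * C2 * (T + κ * ℒ) := by
        have hκℒ : 0 ≤ κ * ℒ := by positivity
        calc _ ≤ C2 * (T + κ * ℒ + T) := mul_le_mul_of_nonneg_left (by linarith) hC2.le
          _ ≤ C2 * (2 * (T + κ * ℒ)) := mul_le_mul_of_nonneg_left (by linarith) hC2.le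
          _ = _ := by ring
      have a6 : T / (2 * Real.pi) * Real.log T ≤ T / (2 * Real.pi) * lck (r + 4 * j) Q T :=
        mul_le_mul_of_nonneg_left (le_lck _ Q T hQ1 hT1) (by positivity)
      linarith
    have hsum : ∑ j ∈ Finset.range J, (1 / (J : ℝ)) *
        (2 * (T / (2 * Real.pi) * Real.log T - C2 * (T + κ * ℒ))) ≤ SN :=
      Finset.sum_le_sum fun j hj => mul_le_mul_of_nonneg_left (hpt j hj) hcr0
    rw [← Finset.sum_mul, hW, one_mul] at hsum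
    exact hsum
  have hNlow : T / (2 * Real.pi) * ℒ * (1 - ε1) - C2 * (T + κ * ℒ) ≤ SN / 2 := by
    have h5 : T / (2 * Real.pi) * ℒ * (1 - ε1) ≤ T / (2 * Real.pi) * Real.log T := by
      have h6 : (1 - ε1) * ℒ ≤ Real.log T := by
        refine le_trans ?_ d3
        refine mul_le_mul_of_nonneg_right ?_ hℒ0.le
        have : ε1' ≤ ε1 := min_le_left _ _
        linarith
      have : T / (2 * Real.pi) * ℒ * (1 - ε1) = T / (2 * Real.pi) * ((1 - ε1) * ℒ) := by ring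
      rw [this]
      exact mul_le_mul_of_nonneg_left h6 (by positivity)
    linarith
  have core : ∀ (D SM : ℝ), 0 < D → D ≤ CC →
      SM ≤ (∑ _j ∈ Finset.range J, (1 / (J : ℝ))) * (2 * ℒ) ^ 2 * Rw γ 0 * T /
          (2 * Real.pi * (β * ℒ)) +
        (2 / (Real.sqrt Real.pi * (β * ℒ))) *
          (∫ u in (0 : ℝ)..(β * ℒ), Rw γ (u / (β * ℒ)) * YH cK δ C5 1 T (εs * T) u) +
        D * ((∑ _j ∈ Finset.range J, (1 / (J : ℝ))) *
          (ℒ ^ 2 * κ / (β * ℒ) + ℒ * T / (β * ℒ) + κ * ℒ) +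
          Real.sqrt (∑ _j ∈ Finset.range J, (1 / (J : ℝ))) * ℒ * T *
            (Real.sqrt y1 + Real.sqrt y2) / (β * ℒ)) →
      (J : ℝ) * SM ≤ (2 * Rw γ 0 / β + β * J0 + ε) *
        ∑ j ∈ Finset.range J, (NN (LK (r + 4 * j) χ) T (2 * T) : ℝ) := by
    intro D SM hD hDC hSM
    rw [hW, Real.sqrt_one, one_mul, one_mul, one_mul] at hSM
    have h1 : SM ≤ (4 * Rw γ 0 / β + 2 * β * J0 + 2 * ε) * (SN / 2) := by
      refine hnum T ℒ κ (Real.sqrt y1 + Real.sqrt y2) _ SM _ hT0 hℒL0 hκ0 hκ1 m5 m4 ?_ hNlow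
      refine hSM.trans ?_
      have hb : 0 ≤ (ℒ ^ 2 * κ / (β * ℒ) + ℒ * T / (β * ℒ) + κ * ℒ) +
          ℒ * T * (Real.sqrt y1 + Real.sqrt y2) / (β * ℒ) := by positivity
      have := mul_le_mul_of_nonneg_right hDC hb
      have e : (2 * ℒ) ^ 2 * Rw γ 0 * T = ℒ ^ 2 * (4 * Rw γ 0) * T := by ring
      rw [e]
      linarith
    have h2 : (4 * Rw γ 0 / β + 2 * β * J0 + 2 * ε) * (SN / 2) =
        (2 * Rw γ 0 / β + β * J0 + ε) * SN := by ring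
    rw [h2] at h1
    have h3 : (J : ℝ) * SN = ∑ j ∈ Finset.range J, (NN (LK (r + 4 * j) χ) T (2 * T) : ℝ) := by
      rw [hSN, ← Finset.mul_sum, ← mul_assoc, mul_one_div_cancel hJ0.ne', one_mul]
    calc (J : ℝ) * SM ≤ J * ((2 * Rw γ 0 / β + β * J0 + ε) * SN) :=
          mul_le_mul_of_nonneg_left h1 hJ0.le
      _ = (2 * Rw γ 0 / β + β * J0 + ε) * (J * SN) := by ring
      _ = _ := by rw [h3]
  refine ⟨?_, ?_, ?_⟩
  · have := core C1 _ hC1 (le_max_left _ _) k1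
    refine le_trans (le_of_eq ?_) this
    rw [← Finset.mul_sum, ← mul_assoc, mul_one_div_cancel hJ0.ne', one_mul]
  · have := core C1' _ hC1' (le_max_right _ _) k2
    refine le_trans (le_of_eq ?_) this
    rw [← Finset.mul_sum, ← mul_assoc, mul_one_div_cancel hJ0.ne', one_mul]
  · rw [Finset.mul_sum, ← hSN]
    refine le_trans ?_ hNlow'
    have hεle : (1 - 1 / 4) * ℒ ≤ Real.log T := by
      refine le_trans ?_ d3
      refine mul_le_mul_of_nonneg_right ?_ hℒ0.le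
      have : ε1' ≤ 1 / 4 := min_le_right _ _
      linarith
    have b1 : T / 8 * Real.log T ≤ T / (2 * Real.pi) * Real.log T := by
      refine mul_le_mul_of_nonneg_right ?_ hlT0
      refine div_le_div_of_nonneg_left hT0.le (by positivity) ?_
      have := Real.pi_lt_four
      linarith
    have b2 : C2 * T ≤ T / 32 * ℒ := by
      have : 32 * C2 * T ≤ ℒ * T := mul_le_mul_of_nonneg_right hℒC2 hT0.le
      linarith
    have b3 : C2 * (κ * ℒ) ≤ T / 32 * ℒ := by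
      have := mul_le_mul_of_nonneg_right hκC2 hℒ0.le
      linarith
    have b4 : T / 32 * ℒ ≤ T / 32 * (4 / 3 * Real.log T) :=
      mul_le_mul_of_nonneg_left (by linarith) (by positivity)
    have b5 : 0 ≤ T * Real.log T := by positivity
    have e1 : T / 8 * Real.log T = T * Real.log T / 8 := by ring
    have e2 : T / 32 * (4 / 3 * Real.log T) = T * Real.log T / 24 := by ring
    rw [e2] at b4
    rw [e1] at b1
    have e3 : C2 * (T + κ * ℒ) = C2 * T + C2 * (κ * ℒ) := by ring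
    rw [e3]
    linarith

end Pool.Agent.W354.FK
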