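import Pool.Agent.W354.FK.Core
import Pool.Agent.H385R2.WinE

/-!
The numerical constants, with some room.
-/

open Complex Filter Topology Set MeasureTheory
open H370 (zset mult NN Nd Ns)

set_option maxHeartbeats 4000000

namespace Pool.Agent.W354.FK

open H385
open Pool.Agent.W354.PK (HCk LK aK bK lck lck_logC goodK)
open Pool.Agent.W354.E (zcount_long_E)
open Pool.Agent.H304R3.HK (tc one_le_norm_tc)

/-- the L-functions of infinity type `r + 4 j`, `j < J` -/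
theorem fk_slack : ∃ e' T0 η : ℝ, 0 < e' ∧ e' ≤ 1 / 100 ∧ 1 ≤ T0 ∧ 0 < η ∧ η ≤ 1 / 12 ∧
    ∀ (r : ℕ) (q : ZI) (χ : ZI →* ℂ)
      (T : ℝ) (J : ℕ), 1 ≤ r → HCk r q χ → T0 ≤ T → (r : ℝ) ≤ T ^ (1 + η) → ‖tc q‖ ≤ T ^ η →
      T ^ (1 - η) ≤ J → (J : ℝ) ≤ T ^ (1 + η) →
      ((0.6725 + e') * ∑ j ∈ Finset.range J, (NN (LK (r + 4 * j) χ) T (2 * T) : ℝ) ≤
        ∑ j ∈ Finset.range J, (Ns (LK (r + 4 * j) χ) T (2 * T) : ℝ)) ∧
      ((0.83625 + e') * ∑ j ∈ Finset.range J, (NN (LK (r + 4 * j) χ) T (2 * T) : ℝ) ≤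
        ∑ j ∈ Finset.range J, (Nd (LK (r + 4 * j) χ) T (2 * T) : ℝ)) ∧
      (J * (T * Real.log T / 16) ≤
        ∑ j ∈ Finset.range J, (NN (LK (r + 4 * j) χ) T (2 * T) : ℝ)) := by
  have h0 : (0 : ℝ) < 1.414 := by norm_num
  have hπ : (1.414 : ℝ) < Real.pi := by linarith [Real.pi_gt_three]
  set R0 : ℝ := Rw 1.414 0 with hR0
  have hR0n : 0 ≤ R0 := Rw_nonneg 1.414 h0 hπ 0
  set J0 : ℝ := ∫ α in (0 : ℝ)..1, α * Rw 1.414 α with hJ
  have hJn : 0 ≤ J0 := I1_nonneg 1.414 h0 hπ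
  have hconst : R0 + 2 * J0 < 1.3275 := Rw_const_d2
  set e : ℝ := 1.3275 - (R0 + 2 * J0) with he
  have he0 : 0 < e := by rw [he]; linarith
  -- choose β = 2 (1 - s)
  set s : ℝ := min (1 / 2) (e / (8 * R0 + 1)) with hs
  have hs0 : 0 < s := by positivity
  have hs1 : s ≤ 1 / 2 := min_le_left _ _
  have hs2 : 8 * R0 * s ≤ e := by
    have h1 : s ≤ e / (8 * R0 + 1) := min_le_right _ _
    calc 8 * R0 * s ≤ 8 * R0 * (e / (8 * R0 + 1)) := mul_le_mul_of_nonneg_left h1 (by positivity)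
      _ = e * (8 * R0 / (8 * R0 + 1)) := by ring
      _ ≤ e * 1 := by
        refine mul_le_mul_of_nonneg_left ?_ he0.le
        rw [div_le_one (by positivity)]; linarith
      _ = e := mul_one e
  set β' : ℝ := 1 - s with hβ'
  have hβ'0 : 0 < β' := by rw [hβ']; linarith
  have hβ'1 : β' < 1 := by rw [hβ']; linarith
  have hβh : 1 / 2 ≤ β' := by rw [hβ']; linarith
  have e2 : R0 / β' ≤ R0 + e / 4 := by
    rw [div_le_iff₀ hβ'0]
    have h1 : (R0 + e / 4) * β' = R0 - R0 * s + e / 4 * β' := by rw [hβ']; ring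
    have h2 : e / 4 * (1 / 2) ≤ e / 4 * β' := mul_le_mul_of_nonneg_left hβh (by linarith)
    rw [h1]
    linarith
  have e3 : 2 * β' * J0 ≤ 2 * J0 := by
    have : 2 * β' * J0 = 2 * (β' * J0) := by ring
    rw [this]
    have : β' * J0 ≤ 1 * J0 := mul_le_mul_of_nonneg_right hβ'1.le hJn
    linarith
  obtain ⟨T0, η, hT0, hη, hη1, h⟩ := fk_core 1.414 (2 * β') (e / 4) h0 hπ
    (by positivity) (by linarith) (by positivity)
  obtain ⟨e', he'0, he'1, he'2⟩ : ∃ e' : ℝ, 0 < e' ∧ e' ≤ 1 / 100 ∧ e' ≤ e / 4 :=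
    ⟨min (1 / 100) (e / 4), lt_min (by norm_num) (by positivity), min_le_left _ _,
      min_le_right _ _⟩
  refine ⟨e', max T0 1, η, he'0, he'1, le_max_right _ _, hη, hη1, ?_⟩
  intro r q χ T J a1 a2 a3 a4 a5 a6 a7
  have hT1 : 1 ≤ T := (le_max_right _ _).trans a3
  obtain ⟨b1, b2, b3⟩ := h r q χ T J a1 a2 ((le_max_left _ _).trans a3) a4 a5 a6 a7
  have hcc : 2 * R0 / (2 * β') + 2 * β' * J0 + e / 4 ≤ 1.3275 - e / 2 := by
    have h1 : 2 * R0 / (2 * β') = R0 / β' := by field_simp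
    have : R0 + 2 * J0 + e = 1.3275 := by rw [he]; ring
    rw [h1]
    linarith
  set SN : ℝ := ∑ j ∈ Finset.range J, (NN (LK (r + 4 * j) χ) T (2 * T) : ℝ) with hSN
  set SS : ℝ := ∑ j ∈ Finset.range J, (Ns (LK (r + 4 * j) χ) T (2 * T) : ℝ) with hSS
  set SD : ℝ := ∑ j ∈ Finset.range J, (Nd (LK (r + 4 * j) χ) T (2 * T) : ℝ) with hSD
  have hSN0 : 0 ≤ SN := Finset.sum_nonneg fun j _ => Nat.cast_nonneg _
  rw [Finset.sum_sub_distrib, ← Finset.mul_sum, ← hSN, ← hSS] at b1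
  rw [Finset.sum_sub_distrib, ← Finset.mul_sum, ← Finset.mul_sum, ← hSN, ← hSD] at b2
  have c3 := mul_le_mul_of_nonneg_right hcc hSN0
  have c1 : 2 * SN - SS ≤ (1.3275 - e / 2) * SN := le_trans b1 c3
  have c2 : 3 * SN - 2 * SD ≤ (1.3275 - e / 2) * SN := le_trans b2 c3
  have c4 : e' * SN ≤ e / 4 * SN := mul_le_mul_of_nonneg_right he'2 hSN0
  have c5 : 0 ≤ e' * SN := by positivity
  have hJ0 : (0 : ℝ) < J := lt_of_lt_of_le (Real.rpow_pos_of_pos (by linarith) _) a6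
  refine ⟨?_, ?_, ?_⟩
  · have d1 : (1.3275 - e / 2) * SN = 1.3275 * SN - 2 * (e / 4 * SN) := by ring
    have d2 : (0.6725 + e') * SN = 0.6725 * SN + e' * SN := by ring
    rw [d1] at c1
    rw [d2]
    norm_num at c1 ⊢
    linarith
  · have d1 : (1.3275 - e / 2) * SN = 1.3275 * SN - 2 * (e / 4 * SN) := by ring
    have d2 : (0.83625 + e') * SN = 0.83625 * SN + e' * SN := by ring
    rw [d1] at c2
    rw [d2]
    norm_num at c2 ⊢
    linarith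
  · have : (J : ℝ) * (T * Real.log T / 16) ≤ J * ((1 / (J : ℝ)) * SN) :=
      mul_le_mul_of_nonneg_left b3 hJ0.le
    rw [← mul_assoc, mul_one_div_cancel hJ0.ne', one_mul] at this
    exact this

/-- upper bound for the number of zeros -/
theorem fk_count : ∃ C : ℝ, 0 < C ∧ ∀ (k : ℕ) (q : ZI) (χ : ZI →* ℂ) (T : ℝ), 1 ≤ k →
    HCk k q χ → 3 ≤ T → (NN (LK k χ) T (2 * T) : ℝ) ≤ C * T * lck k ‖tc q‖ (2 * T) := by
  obtain ⟨A, hA1, hgood⟩ := goodK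
  obtain ⟨C, hC, h⟩ := zcount_long_E 2 A (by norm_num) hA1
  refine ⟨C, hC, ?_⟩
  intro k q χ T hk H hT
  have h1 := h (lck k ‖tc q‖) (LK k χ) (aK k χ) (lck_logC k (one_le_norm_tc H.q0))
    (hgood k q χ hk H).2.2.2 T (2 * T) hT (by linarith)
  have e : 2 * T - T = T := by ring
  rw [e] at h1
  exact h1

end Pool.Agent.W354.FK
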