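import Mathlib

/-!
Parameters for the weighted theorem.
-/

open Filter Topology Set

set_option maxHeartbeats 4000000

namespace Pool.Agent.W354.FK

/-- large `T` -/
theorem w_large (η κc : ℝ) (hη : 0 < η) (hκ : 0 < κc) :
    ∃ T0 : ℝ, 1 ≤ T0 ∧ ∀ T : ℝ, T0 ≤ T → 2400 ≤ T ∧ 96 ≤ κc * T ^ (3 * η / 4) ∧
      2 * T ^ 3 * Real.exp (-(T ^ η) / 2) ≤ κc := by
  have e1 : ∀ᶠ T : ℝ in atTop, 2400 ≤ T := eventually_ge_atTop 2400
  have e2 : ∀ᶠ T : ℝ in atTop, 96 ≤ κc * T ^ (3 * η / 4) := by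
    filter_upwards [(tendsto_rpow_atTop (show 0 < 3 * η / 4 by positivity)).eventually_ge_atTop
      (96 / κc)] with T hT
    rw [div_le_iff₀ hκ] at hT
    linarith
  have e3 : ∀ᶠ T : ℝ in atTop, 2 * T ^ 3 * Real.exp (-(T ^ η) / 2) ≤ κc := by
    have h1 := tendsto_rpow_mul_exp_neg_mul_atTop_nhds_zero (3 / η) (1 / 2) (by norm_num)
    have h2 := h1.comp (tendsto_rpow_atTop hη)
    have h3 : ∀ᶠ T : ℝ in atTop, (T ^ η) ^ (3 / η) * Real.exp (-(1 / 2) * T ^ η) < κc / 2 :=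
      h2.eventually_lt_const (by positivity)
    filter_upwards [h3, eventually_ge_atTop 1] with T hT hT1
    have h4 : (T ^ η) ^ (3 / η) = T ^ 3 := by
      rw [← Real.rpow_mul (by linarith), mul_div_cancel₀ _ hη.ne']
      exact_mod_cast Real.rpow_natCast T 3
    have h5 : -(1 / 2) * T ^ η = -(T ^ η) / 2 := by ring
    rw [h4, h5] at hT
    linarith
  obtain ⟨T0, hT0⟩ := (e1.and (e2.and e3)).exists_forall_of_atTop
  exact ⟨max 1 T0, le_max_left _ _, fun T hT => hT0 T ((le_max_right _ _).trans hT)⟩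

theorem w_param (η κc : ℝ) (hη : 0 < η) (hη1 : η ≤ 1 / 12) (hκ : 0 < κc) (hκ1 : κc ≤ 1) :
    ∃ T0 : ℝ, 1 ≤ T0 ∧ ∀ (T : ℝ) (m : ℕ), T0 ≤ T → ((2 * m + 1 : ℕ) : ℝ) ^ (1 / 2 - η / 8) ≤ T →
      T ≤ ((2 * m + 1 : ℕ) : ℝ) ^ (1 / 2 + η / 8) → ∃ J1 J2 J3 : ℕ,
      2400 ≤ T ∧ J1 ≤ J3 ∧ J3 ≤ J2 ∧ 1 ≤ J3 ∧ T ^ (1 - η) ≤ J1 ∧ (J2 : ℝ) ≤ T ^ (1 + η) ∧
      16 * (2 * J3 + 1) ^ 2 ≤ m ∧ (J1 : ℝ) ≤ κc * J3 ∧
      ((m + 1 + J2 : ℕ) : ℝ) * Real.exp (-(2 * J2 : ℝ) ^ 2 / (2 * m + 2)) ≤ κc ∧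
      ∀ Q k : ℝ, 0 < Q → Q ≤ T ^ η → 0 ≤ k → k ≤ 3 + 4 * ((m + 1 + J2 : ℕ) : ℝ) →
        Real.log (Q * (k + 2 * T)) ≤ 5 * Real.log T := by
  obtain ⟨T0, hT0, h⟩ := w_large η κc hη hκ
  refine ⟨T0, hT0, ?_⟩
  intro T m hT hn1 hn2
  obtain ⟨a1, a2, a3⟩ := h T hT
  have hTp : 0 < T := by linarith
  have hT1 : 1 ≤ T := by linarith
  have hlT : 0 < Real.log T := Real.log_pos (by linarith)
  set n : ℝ := ((2 * m + 1 : ℕ) : ℝ) with hn
  have hnm : n = 2 * m + 1 := by rw [hn]; push_cast; ring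
  have hm0 : (0 : ℝ) ≤ m := Nat.cast_nonneg m
  have hn0 : 0 < n := by rw [hnm]; positivity
  have hln0 : 0 ≤ Real.log n := Real.log_nonneg (by rw [hnm]; linarith)
  -- logarithms
  have l1 : (1 / 2 - η / 8) * Real.log n ≤ Real.log T := by
    have := Real.log_le_log (Real.rpow_pos_of_pos hn0 _) hn1
    rwa [Real.log_rpow hn0] at this
  have l2 : Real.log T ≤ (1 / 2 + η / 8) * Real.log n := by
    have := Real.log_le_log hTp hn2
    rwa [Real.log_rpow hn0] at this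
  have l3 : (2 - η / 2) * Real.log T ≤ Real.log n := by
    have h1 : (2 - η / 2) * Real.log T ≤ (2 - η / 2) * ((1 / 2 + η / 8) * Real.log n) :=
      mul_le_mul_of_nonneg_left l2 (by linarith)
    have h2 : (2 - η / 2) * ((1 / 2 + η / 8) * Real.log n) =
        Real.log n - η ^ 2 / 16 * Real.log n := by ring
    have h3 : 0 ≤ η ^ 2 / 16 * Real.log n := by positivity
    linarith
  have l4 : Real.log n ≤ (2 + η) * Real.log T := by
    have h1 : (2 + η) * ((1 / 2 - η / 8) * Real.log n) ≤ (2 + η) * Real.log T :=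
      mul_le_mul_of_nonneg_left l1 (by linarith)
    have h2 : (2 + η) * ((1 / 2 - η / 8) * Real.log n) =
        Real.log n + (η / 4 - η ^ 2 / 8) * Real.log n := by ring
    have h3 : 0 ≤ (η / 4 - η ^ 2 / 8) * Real.log n := mul_nonneg (by nlinarith) hln0
    linarith
  have b1 : T ^ (2 - η / 2) ≤ n := by
    rw [Real.rpow_def_of_pos hTp, ← Real.le_log_iff_exp_le hn0]
    linarith
  have b2 : n ≤ T ^ (2 + η) := by
    rw [Real.rpow_def_of_pos hTp, ← Real.log_le_iff_le_exp hn0]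
    linarith
  have hTT : T ≤ T ^ (2 - η / 2) := by
    calc T = T ^ (1 : ℝ) := (Real.rpow_one T).symm
      _ ≤ _ := Real.rpow_le_rpow_of_exponent_le hT1 (by linarith)
  -- the square root of `m`
  have hm1 : n / 4 ≤ m := by
    rw [hnm]
    have : 2400 ≤ n := by linarith
    rw [hnm] at this
    linarith
  have c1 : T ^ (1 - η / 4) / 2 ≤ Real.sqrt m := by
    refine Real.le_sqrt_of_sq_le ?_
    have e : (T ^ (1 - η / 4) / 2) ^ 2 = T ^ (2 - η / 2) / 4 := by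
      rw [div_pow, ← Real.rpow_natCast (T ^ (1 - η / 4)) 2, ← Real.rpow_mul hTp.le]
      norm_num
      congr 1
      ring
    rw [e]
    linarith
  have c2 : (24 : ℝ) ≤ Real.sqrt m := by
    refine Real.le_sqrt_of_sq_le ?_
    have : T ≤ n := hTT.trans b1
    linarith
  have c3 : Real.sqrt m ≤ T ^ (1 + η) := by
    rw [Real.sqrt_le_left (Real.rpow_nonneg hTp.le _)]
    have e : (T ^ (1 + η)) ^ 2 = T ^ (2 + 2 * η) := by
      rw [← Real.rpow_natCast (T ^ (1 + η)) 2, ← Real.rpow_mul hTp.le]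
      norm_num
      congr 1
      ring
    rw [e]
    have h1 : (m : ℝ) ≤ n := by rw [hnm]; linarith
    refine h1.trans (b2.trans ?_)
    exact Real.rpow_le_rpow_of_exponent_le hT1 (by linarith)
  have hsm0 : 0 ≤ Real.sqrt m := Real.sqrt_nonneg _
  have hT1η : 1 ≤ T ^ (1 - η) := Real.one_le_rpow hT1 (by linarith)
  have hT2η : T ≤ T ^ (1 + η) := by
    calc T = T ^ (1 : ℝ) := (Real.rpow_one T).symm
      _ ≤ _ := Real.rpow_le_rpow_of_exponent_le hT1 (by linarith)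
  refine ⟨⌈T ^ (1 - η)⌉₊, ⌊T ^ (1 + η)⌋₊, ⌊Real.sqrt m / 12⌋₊, a1, ?_⟩
  have J1u : (⌈T ^ (1 - η)⌉₊ : ℝ) ≤ 2 * T ^ (1 - η) := by
    have := Nat.ceil_lt_add_one (show 0 ≤ T ^ (1 - η) by linarith)
    linarith
  have J1l : T ^ (1 - η) ≤ (⌈T ^ (1 - η)⌉₊ : ℝ) := Nat.le_ceil _
  have J2u : (⌊T ^ (1 + η)⌋₊ : ℝ) ≤ T ^ (1 + η) := Nat.floor_le (by linarith)
  have J2l : T ^ (1 + η) - 1 < (⌊T ^ (1 + η)⌋₊ : ℝ) := by
    have := Nat.lt_floor_add_one (T ^ (1 + η))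
    linarith
  have J3u : (⌊Real.sqrt m / 12⌋₊ : ℝ) ≤ Real.sqrt m / 12 := Nat.floor_le (by positivity)
  have J3l : Real.sqrt m / 12 - 1 < (⌊Real.sqrt m / 12⌋₊ : ℝ) := by
    have := Nat.lt_floor_add_one (Real.sqrt m / 12)
    linarith
  set J1 := ⌈T ^ (1 - η)⌉₊ with hJ1
  set J2 := ⌊T ^ (1 + η)⌋₊ with hJ2
  set J3 := ⌊Real.sqrt m / 12⌋₊ with hJ3
  have d1 : (J1 : ℝ) ≤ κc * J3 := by
    have h1 : T ^ (1 - η / 4) / 48 ≤ J3 := by linarith
    have h2 : T ^ (1 - η / 4) = T ^ (3 * η / 4) * T ^ (1 - η) := by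
      rw [← Real.rpow_add hTp]; congr 1; ring
    calc (J1 : ℝ) ≤ 2 * T ^ (1 - η) := J1u
      _ = 96 * T ^ (1 - η) / 48 := by ring
      _ ≤ κc * T ^ (3 * η / 4) * T ^ (1 - η) / 48 := by
        have := mul_le_mul_of_nonneg_right a2 (show 0 ≤ T ^ (1 - η) by linarith)
        linarith
      _ = κc * (T ^ (1 - η / 4) / 48) := by rw [h2]; ring
      _ ≤ κc * J3 := mul_le_mul_of_nonneg_left h1 hκ.le
  have hJ30 : (0 : ℝ) ≤ J3 := Nat.cast_nonneg _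
  have d2 : (J1 : ℝ) ≤ J3 := d1.trans (mul_le_of_le_one_left hJ30 hκ1)
  have d3 : J1 ≤ J3 := by exact_mod_cast d2
  have d4 : J3 ≤ J2 := by
    rw [hJ3, hJ2]
    exact Nat.floor_le_floor (by linarith)
  have d5 : 1 ≤ J3 := by
    have : (1 : ℝ) ≤ J3 := by linarith
    exact_mod_cast this
  have d6 : 16 * (2 * J3 + 1) ^ 2 ≤ m := by
    have h1 : (2 * (J3 : ℝ) + 1) ≤ Real.sqrt m / 4 := by linarith
    have h2 : (2 * (J3 : ℝ) + 1) ^ 2 ≤ m / 16 := by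
      refine (pow_le_pow_left₀ (by positivity) h1 2).trans (le_of_eq ?_)
      rw [div_pow, Real.sq_sqrt hm0]
      norm_num
    have h3 : 16 * (2 * (J3 : ℝ) + 1) ^ 2 ≤ m := by linarith
    exact_mod_cast h3
  have hM : ((m + 1 + J2 : ℕ) : ℝ) ≤ 2 * T ^ 3 := by
    have h1 : (m : ℝ) + 1 ≤ T ^ 3 := by
      have h2 : (m : ℝ) + 1 ≤ n := by rw [hnm]; linarith
      refine h2.trans (b2.trans ?_)
      calc T ^ (2 + η) ≤ T ^ ((3 : ℕ) : ℝ) :=
            Real.rpow_le_rpow_of_exponent_le hT1 (by push_cast; linarith)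
        _ = T ^ 3 := Real.rpow_natCast T 3
    have h2 : (J2 : ℝ) ≤ T ^ 3 := by
      refine J2u.trans ?_
      calc T ^ (1 + η) ≤ T ^ ((3 : ℕ) : ℝ) :=
            Real.rpow_le_rpow_of_exponent_le hT1 (by push_cast; linarith)
        _ = T ^ 3 := Real.rpow_natCast T 3
    push_cast
    linarith
  have d7 : ((m + 1 + J2 : ℕ) : ℝ) * Real.exp (-(2 * J2 : ℝ) ^ 2 / (2 * m + 2)) ≤ κc := by
    refine le_trans ?_ a3
    refine mul_le_mul hM (Real.exp_le_exp.mpr ?_) (Real.exp_pos _).le (by positivity)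
    have h1 : T ^ (1 + η) ≤ 2 * J2 := by linarith
    have h2 : T ^ (2 + 2 * η) ≤ (2 * J2 : ℝ) ^ 2 := by
      have h3 := pow_le_pow_left₀ (Real.rpow_nonneg hTp.le _) h1 2
      refine le_trans (le_of_eq ?_) h3
      rw [← Real.rpow_natCast (T ^ (1 + η)) 2, ← Real.rpow_mul hTp.le]
      norm_num
      congr 1
      ring
    have h4 : (m : ℝ) + 1 ≤ T ^ (2 + η) := by
      have : (m : ℝ) + 1 ≤ n := by rw [hnm]; linarith
      exact this.trans b2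
    have hm1' : (0 : ℝ) < 2 * m + 2 := by positivity
    rw [neg_div, neg_div]
    refine neg_le_neg ?_
    rw [le_div_iff₀ hm1']
    calc T ^ η / 2 * (2 * m + 2) = T ^ η * (m + 1) := by ring
      _ ≤ T ^ η * T ^ (2 + η) :=
          mul_le_mul_of_nonneg_left h4 (Real.rpow_nonneg hTp.le _)
      _ = T ^ (2 + 2 * η) := by rw [← Real.rpow_add hTp]; congr 1; ring
      _ ≤ _ := h2
  refine ⟨d3, d4, d5, J1l, J2u, d6, d1, d7, ?_⟩
  intro Q k hQ hQT hk hkM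
  have h1 : Q * (k + 2 * T) ≤ T * (13 * T ^ 3) := by
    have h2 : Q ≤ T := hQT.trans (by
      calc T ^ η ≤ T ^ (1 : ℝ) := Real.rpow_le_rpow_of_exponent_le hT1 (by linarith)
        _ = T := Real.rpow_one T)
    have h3 : T ≤ T ^ 3 := by
      calc T = T ^ 1 := (pow_one T).symm
        _ ≤ T ^ 3 := pow_le_pow_right₀ hT1 (by norm_num)
    refine mul_le_mul h2 ?_ (by positivity) hTp.le
    linarith
  have h4 : Q * (k + 2 * T) ≤ T ^ 5 := by
    refine h1.trans ?_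
    have h5 : (0 : ℝ) ≤ T ^ 4 := by positivity
    calc T * (13 * T ^ 3) = 13 * T ^ 4 := by ring
      _ ≤ T * T ^ 4 := mul_le_mul_of_nonneg_right (by linarith) h5
      _ = T ^ 5 := by ring
  have h6 := Real.log_le_log (by positivity) h4
  rw [Real.log_pow] at h6
  exact_mod_cast h6

end Pool.Agent.W354.FK
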