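import Pool.Agent.W354.FK.Slack
import Pool.Agent.W354.FK.WParam
import Pool.Agent.W354.FK.Abel
import Pool.Agent.W354.FK.Binom

/-!
The weighted family: weights `w l` for the infinity type `2l+1`.
-/

open Complex Filter Topology Set MeasureTheory
open H370 (zset mult NN Nd Ns)

set_option maxHeartbeats 4000000

namespace Pool.Agent.W354.FK

open H385
open Pool.Agent.W354.PK (HCk LK aK bK lck lck_logC goodK)
open Pool.Agent.W354.MS (HCk_shift)
open Pool.Agent.H304R3.HK (tc one_le_norm_tc)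

theorem fk_weighted : ∃ T0 η : ℝ, 1 ≤ T0 ∧ 0 < η ∧ η ≤ 1 / 96 ∧
    ∀ (a : ℕ) (q : ZI) (χ : ZI →* ℂ) (T : ℝ) (m : ℕ) (W : ℕ → ℝ), Wt m W → a ≤ 1 →
      HCk (2 * a + 1) q χ → T0 ≤ T →
      ‖tc q‖ ≤ T ^ η → ((2 * m + 1 : ℕ) : ℝ) ^ (1 / 2 - η) ≤ T →
      T ≤ ((2 * m + 1 : ℕ) : ℝ) ^ (1 / 2 + η) →
      (0.6725 * ∑ j ∈ Finset.range (m + 1), W (a + 2 * j) *
          (NN (LK (2 * a + 1 + 4 * j) χ) T (2 * T) : ℝ) ≤
        ∑ j ∈ Finset.range (m + 1), W (a + 2 * j) *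
          (Ns (LK (2 * a + 1 + 4 * j) χ) T (2 * T) : ℝ)) ∧
      (0.83625 * ∑ j ∈ Finset.range (m + 1), W (a + 2 * j) *
          (NN (LK (2 * a + 1 + 4 * j) χ) T (2 * T) : ℝ) ≤
        ∑ j ∈ Finset.range (m + 1), W (a + 2 * j) *
          (Nd (LK (2 * a + 1 + 4 * j) χ) T (2 * T) : ℝ)) ∧
      (W 0 * (T * Real.log T / 256) ≤ ∑ j ∈ Finset.range (m + 1), W (a + 2 * j) *
          (NN (LK (2 * a + 1 + 4 * j) χ) T (2 * T) : ℝ)) ∧ 2 ≤ T := by
  obtain ⟨e', T1, η1, he'0, he'1, hT1, hη1, hη1', H1⟩ := fk_slack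
  obtain ⟨C, hC, hcount⟩ := fk_count
  set κc : ℝ := min 1 (e' / (2560 * C)) with hκc
  have hκc0 : 0 < κc := lt_min one_pos (by positivity)
  have hκc1 : κc ≤ 1 := min_le_left _ _
  have hκc2 : 2560 * C * κc ≤ e' := by
    calc 2560 * C * κc ≤ 2560 * C * (e' / (2560 * C)) :=
          mul_le_mul_of_nonneg_left (min_le_right _ _) (by positivity)
      _ = e' := by field_simp
  obtain ⟨T2, hT2, H2⟩ := w_param η1 κc hη1 hη1' hκc0 hκc1
  refine ⟨max T1 T2, η1 / 8, le_max_of_le_left hT1, by positivity, by linarith, ?_⟩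
  intro a q χ T m W hW ha H hT hq hn1 hn2
  obtain ⟨J1, J2, J3, p1, p2, p3, p4, p5, p6, p7, p8, p9, p10⟩ :=
    H2 T m ((le_max_right _ _).trans hT) hn1 hn2
  have hT1' : T1 ≤ T := (le_max_left _ _).trans hT
  have hTp : 0 < T := by linarith
  have hT1'' : 1 ≤ T := by linarith
  have hlT : 0 < Real.log T := Real.log_pos (by linarith)
  have hQ1 : 1 ≤ ‖tc q‖ := one_le_norm_tc H.q0
  have hqη : ‖tc q‖ ≤ T ^ η1 :=
    hq.trans (Real.rpow_le_rpow_of_exponent_le hT1'' (by linarith))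
  have hr : ((2 * a + 1 : ℕ) : ℝ) ≤ T ^ (1 + η1) := by
    have h1 : ((2 * a + 1 : ℕ) : ℝ) ≤ 3 := by
      have : 2 * a + 1 ≤ 3 := by omega
      exact_mod_cast this
    have h2 : T ≤ T ^ (1 + η1) := by
      calc T = T ^ (1 : ℝ) := (Real.rpow_one T).symm
        _ ≤ _ := Real.rpow_le_rpow_of_exponent_le hT1'' (by linarith)
    linarith
  set M : ℕ := m + 1 + J2 with hM
  set w : ℕ → ℝ := fun j => W (a + 2 * j) with hw
  set N : ℕ → ℝ := fun j => (NN (LK (2 * a + 1 + 4 * j) χ) T (2 * T) : ℝ) with hN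
  set G1 : ℕ → ℝ := fun j => (Ns (LK (2 * a + 1 + 4 * j) χ) T (2 * T) : ℝ) with hG1
  set G2 : ℕ → ℝ := fun j => (Nd (LK (2 * a + 1 + 4 * j) χ) T (2 * T) : ℝ) with hG2
  set B : ℝ := C * T * (5 * Real.log T) with hB
  set X : ℝ := J3 * (T * Real.log T / 16) with hX
  have hTlT : 0 < T * Real.log T := by positivity
  have hB0 : 0 ≤ B := by positivity
  have hw0 : ∀ j, 0 ≤ w j := fun j => hW.nn _
  have hwa : Antitone w := fun i j hij => hW.anti (by omega)
  have hJ31 : (1 : ℝ) ≤ J3 := by exact_mod_cast p4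
  -- conditions
  have hrange : ∀ J, J1 ≤ J → J ≤ J2 → T ^ (1 - η1) ≤ (J : ℝ) ∧ (J : ℝ) ≤ T ^ (1 + η1) := by
    intro J hJ1 hJ2
    have h1 : (J1 : ℝ) ≤ J := by exact_mod_cast hJ1
    have h2 : (J : ℝ) ≤ J2 := by exact_mod_cast hJ2
    exact ⟨p5.trans h1, h2.trans p6⟩
  have hfam := fun J (h1 : J1 ≤ J) (h2 : J ≤ J2) => H1 (2 * a + 1) q χ T J (by omega) H hT1' hr
    hqη (hrange J h1 h2).1 (hrange J h1 h2).2
  have hNB : ∀ j, j < M → N j ≤ B := by
    intro j hj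
    have h1 := hcount (2 * a + 1 + 4 * j) q χ T (by omega) (HCk_shift H j) (by linarith)
    refine h1.trans ?_
    rw [hB]
    refine mul_le_mul_of_nonneg_left ?_ (by positivity)
    unfold lck
    refine p10 ‖tc q‖ _ (by linarith) hqη (Nat.cast_nonneg _) ?_
    have h2 : 2 * a + 1 + 4 * j ≤ 3 + 4 * M := by omega
    exact_mod_cast h2
  have hX2 : X ≤ ∑ j ∈ Finset.range J3, N j := (hfam J3 p2 p3).2.2
  have hcB0 : W 0 / 4 ≤ w 0 := by
    have h1 : 16 * a ^ 2 ≤ m := by nlinarith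
    exact hW.low a h1
  have hw3 : w 0 / 4 ≤ w J3 := by
    have h1 : 16 * (a + 2 * J3) ^ 2 ≤ m := by
      refine le_trans ?_ p7
      have : a + 2 * J3 ≤ 2 * J3 + 1 := by omega
      exact Nat.mul_le_mul_left 16 (Nat.pow_le_pow_left this 2)
    have h2 := hW.low (a + 2 * J3) h1
    have h3 : w 0 ≤ W 0 := hW.anti (Nat.zero_le _)
    have h4 : W (a + 2 * J3) = w J3 := rfl
    rw [← h4]
    linarith
  have h4 : J1 * B ≤ e' / 8 * X := by
    have h5 : C * κc ≤ e' / 2560 := by linarith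
    calc (J1 : ℝ) * B ≤ κc * J3 * B := mul_le_mul_of_nonneg_right p8 hB0
      _ = (C * κc) * (J3 * (5 * (T * Real.log T))) := by rw [hB]; ring
      _ ≤ (e' / 2560) * (J3 * (5 * (T * Real.log T))) :=
          mul_le_mul_of_nonneg_right h5 (by positivity)
      _ ≤ e' / 8 * X := by
          rw [hX]
          have : 0 ≤ e' * (J3 * (T * Real.log T)) := by positivity
          linarith
  have h5 : M * (w J2 * B) ≤ e' / 8 * X * w 0 := by
    have k1 : w J2 ≤ Real.exp (-(2 * J2 : ℝ) ^ 2 / (2 * m + 2)) * W 0 := by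
      have k2 := hW.up (a + 2 * J2)
      refine k2.trans (mul_le_mul_of_nonneg_right (Real.exp_le_exp.mpr ?_) (hW.nn 0))
      have k3 : (2 * J2 : ℝ) ^ 2 ≤ ((a + 2 * J2 : ℕ) : ℝ) ^ 2 := by
        refine pow_le_pow_left₀ (by positivity) ?_ 2
        push_cast
        have : (0 : ℝ) ≤ a := Nat.cast_nonneg a
        linarith
      have hm1 : (0 : ℝ) < 2 * m + 2 := by positivity
      exact div_le_div_of_nonneg_right (neg_le_neg k3) hm1.le
    have k4 : (M : ℝ) * w J2 ≤ κc * W 0 := by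
      calc (M : ℝ) * w J2 ≤ M * (Real.exp (-(2 * J2 : ℝ) ^ 2 / (2 * m + 2)) * W 0) :=
            mul_le_mul_of_nonneg_left k1 (Nat.cast_nonneg M)
        _ = (M * Real.exp (-(2 * J2 : ℝ) ^ 2 / (2 * m + 2))) * W 0 := by ring
        _ ≤ κc * W 0 := mul_le_mul_of_nonneg_right p9 (hW.nn 0)
    have k5 : κc * W 0 ≤ κc * (4 * w 0) := mul_le_mul_of_nonneg_left (by linarith) hκc0.le
    have k6 : C * κc ≤ e' / 2560 := by linarith
    calc (M : ℝ) * (w J2 * B) = (M * w J2) * B := by ring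
      _ ≤ (κc * (4 * w 0)) * B := mul_le_mul_of_nonneg_right (k4.trans k5) hB0
      _ = (C * κc) * (w 0 * (20 * (T * Real.log T))) := by rw [hB]; ring
      _ ≤ (e' / 2560) * (w 0 * (20 * (T * Real.log T))) :=
          mul_le_mul_of_nonneg_right k6 (mul_nonneg (hw0 0) (by positivity))
      _ = e' / 8 * (1 * (T * Real.log T / 16)) * w 0 := by ring
      _ ≤ e' / 8 * X * w 0 := by
          rw [hX]
          refine mul_le_mul_of_nonneg_right ?_ (hw0 0)
          refine mul_le_mul_of_nonneg_left ?_ (by positivity)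
          exact mul_le_mul_of_nonneg_right hJ31 (by positivity)
  have hMJ : J2 ≤ M := by omega
  have hN0 : ∀ j, 0 ≤ N j := fun j => Nat.cast_nonneg _
  have hcut : ∀ f : ℕ → ℝ, ∑ j ∈ Finset.range M, w j * f j =
      ∑ j ∈ Finset.range (m + 1), W (a + 2 * j) * f j := by
    intro f
    symm
    refine Finset.sum_subset (Finset.range_mono (by omega)) (fun j _ hj => ?_)
    rw [Finset.mem_range, not_lt] at hj
    rw [hW.zero (a + 2 * j) (by omega), zero_mul]
  have r1 := weighted w G1 N 0.6725 e' B X J1 J2 J3 M hwa hw0 p2 p3 (by norm_num) he'0.le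
    (by norm_num; linarith) hB0 (fun j => Nat.cast_nonneg _) hN0 hNB hMJ
    (fun J h1 h2 => (hfam J h1 h2).1) hX2 hw3 h4 h5
  have r2 := weighted w G2 N 0.83625 e' B X J1 J2 J3 M hwa hw0 p2 p3 (by norm_num) he'0.le
    (by norm_num; linarith) hB0 (fun j => Nat.cast_nonneg _) hN0 hNB hMJ
    (fun J h1 h2 => (hfam J h1 h2).2.1) hX2 hw3 h4 h5
  have r3 : W 0 * (T * Real.log T / 256) ≤ ∑ j ∈ Finset.range M, w j * N j := by
    have q1 : W 0 / 16 ≤ w J3 := by linarith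
    have hX0 : T * Real.log T / 16 ≤ X := by
      rw [hX]
      exact le_mul_of_one_le_left (by positivity) hJ31
    have hXn : 0 ≤ T * Real.log T / 16 := by positivity
    calc W 0 * (T * Real.log T / 256) = W 0 / 16 * (T * Real.log T / 16) := by ring
      _ ≤ w J3 * ∑ j ∈ Finset.range J3, N j :=
          mul_le_mul q1 (hX0.trans hX2) hXn (hw0 _)
      _ = ∑ j ∈ Finset.range J3, w J3 * N j := by rw [Finset.mul_sum]
      _ ≤ ∑ j ∈ Finset.range J3, w j * N j := by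
          refine Finset.sum_le_sum fun j hj => mul_le_mul_of_nonneg_right ?_ (hN0 j)
          exact hwa (Finset.mem_range.mp hj).le
      _ ≤ ∑ j ∈ Finset.range M, w j * N j := by
          refine Finset.sum_le_sum_of_subset_of_nonneg (Finset.range_mono (by omega)) ?_
          exact fun j _ _ => mul_nonneg (hw0 j) (hN0 j)
  rw [hcut, hcut] at r1 r2
  rw [hcut] at r3
  exact ⟨r1, r2, r3, by linarith⟩

end Pool.Agent.W354.FK
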